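import Pool.Agent.Lib.NPL.Low
import Pool.Agent.Lib.Pb736.RealB

/-!
# Module LowAsy: asymptotics of the lower bound

PROOF.  For large `p` let `m = Nat.sqrt (p / 12)`, so `12 m^2 ≤ p` and `m ≥ c √p`.  `low` gives `Real 2 Δ ω T9 k N0` with `k ≤ 12 m^2 ≤ p` and
`N0 * A ≥ RS(m) m^6`, `A = Nat.card (T9 ≃g T9) > 0` (`card_aut_pos`).  `real_add` with `real_zero (p - k)` gives `Real 2 Δ ω T9 p N0`
(`RealBAux`), and `real_le_exU` gives `N0 ≤ exU`.  `ruzsaSzemerediNumberNat_asymptotic_lower_bound`: `RS(m) ≥ c' m^2 exp (-4 √(log m))`,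
so `N0 ≥ c'' m^8 exp (-4 √(log m)) ≥ c''' p^4 exp (-4 √(log p)) ≥ p^4 exp (-5 √(log p))` for large `p`.
-/

set_option autoImplicit false

namespace NPL

open SimpleGraph Finset Filter Pb736

theorem low_final {Δ ω : ℕ} (hΔ : 1 ≤ Δ) (hω : 3 ≤ ω) :
    ∀ᶠ p : ℕ in atTop, ∀ N : ℕ, (N : ℝ) ≤ (p : ℝ) ^ 4 * Real.exp (-5 * √(Real.log p)) →
      (N : ℕ∞) ≤ exU 2 Δ ω T9 p := by
  obtain ⟨A, hA⟩ : ∃ A : ℝ, A = (Nat.card (T9 ≃g T9) : ℝ) := ⟨_, rfl⟩
  have hA0 : 0 < A := by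
    rw [hA]
    exact_mod_cast card_aut_pos T9
  obtain ⟨C, hC0, hC⟩ := ruzsaSzemerediNumberNat_asymptotic_lower_bound.exists_pos
  obtain ⟨M0, hM0⟩ := eventually_atTop.1 (Asymptotics.isBigOWith_iff.1 hC)
  have hlog : Tendsto (fun p : ℕ => Real.exp (√(Real.log p))) atTop atTop :=
    Real.tendsto_exp_atTop.comp (Real.tendsto_sqrt_atTop.comp
      (Real.tendsto_log_atTop.comp tendsto_natCast_atTop_atTop))
  filter_upwards [hlog.eventually_ge_atTop (48 ^ 4 * C * A),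
    eventually_ge_atTop (12 * (M0 + 1) ^ 2)] with p hp1 hp2 N hN
  obtain ⟨m, hm⟩ : ∃ m, m = Nat.sqrt (p / 12) := ⟨_, rfl⟩
  have hmM : M0 + 1 ≤ m := by
    rw [hm, Nat.le_sqrt, Nat.le_div_iff_mul_le (by norm_num)]
    nlinarith
  have h12 : 12 * m ^ 2 ≤ p := by
    have h2 : m * m ≤ p / 12 := by rw [hm]; exact Nat.sqrt_le (p / 12)
    have h3 : p / 12 * 12 ≤ p := Nat.div_mul_le_self p 12
    nlinarith
  have h48 : p ≤ 48 * m ^ 2 := by
    have h2 : p / 12 < (m + 1) * (m + 1) := by rw [hm]; exact Nat.lt_succ_sqrt (p / 12)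
    have h3 : p < 12 * (p / 12 + 1) := by omega
    have h4 : 1 ≤ m := by omega
    nlinarith
  have hmp : m ≤ p := by nlinarith
  obtain ⟨k, N0, hreal, hk, hN0⟩ := low m hΔ hω
  have hr2 : Real 2 Δ ω T9 p N0 := by
    have h2 := real_add (by norm_num) hreal
      (real_zero (H := T9) (Δ := Δ) (u := 2) (ω := ω) (by norm_num) (by omega) (p - k))
    have h3 : k + (p - k) = p := by omega
    rw [h3, add_zero] at h2
    exact h2
  have hNN : N ≤ N0 := by
    have hRS := hM0 m (by omega)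
    rw [Real.norm_of_nonneg (by positivity), Real.norm_of_nonneg (by positivity)] at hRS
    obtain ⟨R, hR⟩ : ∃ R : ℝ, R = (ruzsaSzemerediNumberNat m : ℝ) := ⟨_, rfl⟩
    rw [← hR] at hRS
    have hN0' : R * (m : ℝ) ^ 6 ≤ N0 * A := by
      rw [hR, hA]
      exact_mod_cast hN0
    have hm1 : (1 : ℝ) ≤ m := by
      have : 1 ≤ m := by omega
      exact_mod_cast this
    have hE : Real.exp (-4 * √(Real.log p)) ≤ Real.exp (-4 * √(Real.log m)) := by
      apply Real.exp_le_exp.2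
      have h1 : Real.log m ≤ Real.log p :=
        Real.log_le_log (by linarith) (by exact_mod_cast hmp)
      have h2 := Real.sqrt_le_sqrt h1
      linarith
    have hp4 : (p : ℝ) ^ 4 ≤ 48 ^ 4 * (m : ℝ) ^ 8 := by
      have h1 : (p : ℝ) ≤ 48 * (m : ℝ) ^ 2 := by exact_mod_cast h48
      calc (p : ℝ) ^ 4 ≤ (48 * (m : ℝ) ^ 2) ^ 4 := pow_le_pow_left₀ (by positivity) h1 4
        _ = 48 ^ 4 * (m : ℝ) ^ 8 := by ring
    have h8 : (m : ℝ) ^ 8 * Real.exp (-4 * √(Real.log p)) ≤ C * (N0 * A) := by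
      calc (m : ℝ) ^ 8 * Real.exp (-4 * √(Real.log p))
          ≤ (m : ℝ) ^ 8 * Real.exp (-4 * √(Real.log m)) :=
            mul_le_mul_of_nonneg_left hE (by positivity)
        _ = ((m : ℝ) ^ 2 * Real.exp (-4 * √(Real.log m))) * (m : ℝ) ^ 6 := by ring
        _ ≤ (C * R) * (m : ℝ) ^ 6 := mul_le_mul_of_nonneg_right hRS (by positivity)
        _ = C * (R * (m : ℝ) ^ 6) := by ring
        _ ≤ C * (N0 * A) := mul_le_mul_of_nonneg_left hN0' hC0.le
    have hexp : Real.exp (-5 * √(Real.log p)) =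
        Real.exp (-4 * √(Real.log p)) * Real.exp (-√(Real.log p)) := by
      rw [← Real.exp_add]
      congr 1
      ring
    have he1 : 48 ^ 4 * C * A * Real.exp (-√(Real.log p)) ≤ 1 := by
      have h1 := mul_le_mul_of_nonneg_right hp1 (Real.exp_pos (-√(Real.log p))).le
      rw [← Real.exp_add, add_neg_cancel, Real.exp_zero] at h1
      exact h1
    have hfin : (N : ℝ) ≤ N0 := by
      calc (N : ℝ) ≤ (p : ℝ) ^ 4 * Real.exp (-5 * √(Real.log p)) := hN
        _ = ((p : ℝ) ^ 4 * Real.exp (-4 * √(Real.log p))) * Real.exp (-√(Real.log p)) := by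
            rw [hexp]; ring
        _ ≤ ((48 ^ 4 * (m : ℝ) ^ 8) * Real.exp (-4 * √(Real.log p))) *
              Real.exp (-√(Real.log p)) := by
            apply mul_le_mul_of_nonneg_right _ (Real.exp_pos _).le
            exact mul_le_mul_of_nonneg_right hp4 (Real.exp_pos _).le
        _ = 48 ^ 4 * Real.exp (-√(Real.log p)) *
              ((m : ℝ) ^ 8 * Real.exp (-4 * √(Real.log p))) := by ring
        _ ≤ 48 ^ 4 * Real.exp (-√(Real.log p)) * (C * (N0 * A)) :=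
            mul_le_mul_of_nonneg_left h8 (by positivity)
        _ = (48 ^ 4 * C * A * Real.exp (-√(Real.log p))) * N0 := by ring
        _ ≤ 1 * N0 := mul_le_mul_of_nonneg_right he1 (by positivity)
        _ = N0 := one_mul _
    exact_mod_cast hfin
  have h5 : (N : ℕ∞) ≤ (N0 : ℕ∞) := by exact_mod_cast hNN
  exact h5.trans (real_le_exU hr2)

end NPL
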