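import Mathlib

/-!
# Module Rem: few triangles, from the triangle removal lemma

PROOF.  Let `t` be the number of triangles, every edge lies in at most `Δ` triangles, so `t ≤ Δ * e(G) ≤ Δ * |V|^2`.
Let `ε₁ = ε / (6 Δ + 6)` (and `< 1`) .  If `|V| ≤ N1 := ⌈(Δ + 1) / triangleRemovalBound ε₁⌉` the number of ordered triangles is at most
`|V|^3 ≤ N1^3 ≤ ε n^2` for `n ≥ n0`.  If `|V| > N1` then `G` is not `FarFromTriangleFree ε₁`, otherwise
`triangleRemovalBound ε₁ * |V|^3 ≤ t ≤ Δ |V|^2` (`FarFromTriangleFree.le_card_cliqueFinset`).  So (`farFromTriangleFree_iff`) there is a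
triangle-free `H' ≤ G` with `e(G) - e(H') < ε₁ |V|^2`; every triangle of `G` has an edge in `G \ H'`, so
`t ≤ Δ ε₁ |V|^2`, and the number of ordered triangles is `6 t ≤ 6 Δ ε₁ n^2 ≤ ε n^2`.
(One can also bound ordered triangles directly: each has one of its three pairs in `G \ H'`.)
-/

set_option autoImplicit false

namespace NPL

open SimpleGraph Finset

section

variable {V : Type} [Fintype V] [DecidableEq V] (G : SimpleGraph V) [DecidableRel G.Adj]

/-- The ordered triangles. -/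
def oT : Finset (V × V × V) :=
  univ.filter (fun t : V × V × V => G.Adj t.1 t.2.1 ∧ G.Adj t.2.1 t.2.2 ∧ G.Adj t.2.2 t.1)

theorem card_pairs : #(univ.filter (fun q : V × V => G.Adj q.1 q.2)) = 2 * #G.edgeFinset := by
  rw [← G.sum_degrees_eq_twice_card_edges]
  rw [card_filter, Fintype.sum_prod_type]
  refine sum_congr rfl fun x _ => ?_
  rw [← G.card_neighborFinset_eq_degree x, ← card_filter]
  congr 1
  ext y
  simp

theorem card_three (Δ : ℕ)
    (h : ∀ x y, G.Adj x y → #(univ.filter (fun z => G.Adj x z ∧ G.Adj y z)) ≤ Δ)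
    (D : Finset (V × V)) (hD : ∀ q ∈ D, G.Adj q.1 q.2)
    (S : Finset (V × V × V)) (hS : S ⊆ oT G) :
    ((∀ t ∈ S, (t.1, t.2.1) ∈ D) → #S ≤ Δ * #D) ∧
    ((∀ t ∈ S, (t.2.1, t.2.2) ∈ D) → #S ≤ Δ * #D) ∧
    ((∀ t ∈ S, (t.2.2, t.1) ∈ D) → #S ≤ Δ * #D) := by
  refine ⟨fun hf => ?_, fun hf => ?_, fun hf => ?_⟩
  · refine card_le_mul_card_image_of_maps_to (f := fun t : V × V × V => (t.1, t.2.1)) hf Δ ?_
    rintro ⟨x, y⟩ hb
    refine (card_le_card_of_injOn (fun t : V × V × V => t.2.2) ?_ ?_).trans (h x y (hD _ hb))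
    · rintro ⟨a, b, c⟩ ht
      simp only [coe_filter, Set.mem_ofPred_eq, Prod.mk.injEq] at ht
      obtain ⟨ht, rfl, rfl⟩ := ht
      have := hS ht
      simp only [oT, mem_filter, mem_univ, true_and] at this
      simp only [coe_filter, Set.mem_ofPred_eq, mem_univ, true_and]
      exact ⟨this.2.2.symm, this.2.1⟩
    · rintro ⟨a, b, c⟩ ht ⟨a', b', c'⟩ ht' heq
      simp only [coe_filter, Set.mem_ofPred_eq, Prod.mk.injEq] at ht ht'
      obtain ⟨_, rfl, rfl⟩ := ht
      obtain ⟨_, rfl, rfl⟩ := ht'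
      simp only at heq
      rw [heq]
  · refine card_le_mul_card_image_of_maps_to (f := fun t : V × V × V => (t.2.1, t.2.2)) hf Δ ?_
    rintro ⟨x, y⟩ hb
    refine (card_le_card_of_injOn (fun t : V × V × V => t.1) ?_ ?_).trans (h x y (hD _ hb))
    · rintro ⟨a, b, c⟩ ht
      simp only [coe_filter, Set.mem_ofPred_eq, Prod.mk.injEq] at ht
      obtain ⟨ht, rfl, rfl⟩ := ht
      have := hS ht
      simp only [oT, mem_filter, mem_univ, true_and] at this
      simp only [coe_filter, Set.mem_ofPred_eq, mem_univ, true_and]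
      exact ⟨this.1.symm, this.2.2⟩
    · rintro ⟨a, b, c⟩ ht ⟨a', b', c'⟩ ht' heq
      simp only [coe_filter, Set.mem_ofPred_eq, Prod.mk.injEq] at ht ht'
      obtain ⟨_, rfl, rfl⟩ := ht
      obtain ⟨_, rfl, rfl⟩ := ht'
      simp only at heq
      rw [heq]
  · refine card_le_mul_card_image_of_maps_to (f := fun t : V × V × V => (t.2.2, t.1)) hf Δ ?_
    rintro ⟨x, y⟩ hb
    refine (card_le_card_of_injOn (fun t : V × V × V => t.2.1) ?_ ?_).trans (h x y (hD _ hb))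
    · rintro ⟨a, b, c⟩ ht
      simp only [coe_filter, Set.mem_ofPred_eq, Prod.mk.injEq] at ht
      obtain ⟨ht, rfl, rfl⟩ := ht
      have := hS ht
      simp only [oT, mem_filter, mem_univ, true_and] at this
      simp only [coe_filter, Set.mem_ofPred_eq, mem_univ, true_and]
      exact ⟨this.2.1.symm, this.1⟩
    · rintro ⟨a, b, c⟩ ht ⟨a', b', c'⟩ ht' heq
      simp only [coe_filter, Set.mem_ofPred_eq, Prod.mk.injEq] at ht ht'
      obtain ⟨_, rfl, rfl⟩ := ht
      obtain ⟨_, rfl, rfl⟩ := ht'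
      simp only at heq
      rw [heq]

theorem card_oT_le (Δ : ℕ)
    (h : ∀ x y, G.Adj x y → #(univ.filter (fun z => G.Adj x z ∧ G.Adj y z)) ≤ Δ) :
    #(oT G) ≤ Δ * (Fintype.card V) ^ 2 := by
  refine ((card_three G Δ h (univ.filter (fun q : V × V => G.Adj q.1 q.2)) (fun q hq => by
    simpa using hq) (oT G) Subset.rfl).1 (fun t ht => ?_)).trans (Nat.mul_le_mul_left _ ?_)
  · simp only [oT, mem_filter, mem_univ, true_and] at ht
    simpa using ht.1
  · refine (card_filter_le _ _).trans ?_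
    rw [card_univ, Fintype.card_prod, sq]

theorem card_clique_le : #(G.cliqueFinset 3) ≤ #(oT G) := by
  refine (card_le_card (t := (oT G).image (fun t => ({t.1, t.2.1, t.2.2} : Finset V))) ?_).trans
    card_image_le
  intro s hs
  rw [mem_cliqueFinset_iff, is3Clique_iff] at hs
  obtain ⟨a, b, c, hab, hac, hbc, rfl⟩ := hs
  rw [mem_image]
  exact ⟨(a, b, c), by simp [oT, hab, hbc, hac.symm], rfl⟩

theorem card_oT_removal (Δ : ℕ)
    (h : ∀ x y, G.Adj x y → #(univ.filter (fun z => G.Adj x z ∧ G.Adj y z)) ≤ Δ)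
    (H : SimpleGraph V) [DecidableRel H.Adj] (hH : H ≤ G) (hf : H.CliqueFree 3) :
    (#(oT G) : ℝ) ≤ 6 * Δ * (#G.edgeFinset - #H.edgeFinset) := by
  set D := univ.filter (fun q : V × V => G.Adj q.1 q.2 ∧ ¬ H.Adj q.1 q.2) with hD
  have hDc : #D + 2 * #H.edgeFinset = 2 * #G.edgeFinset := by
    rw [← card_pairs, ← card_pairs]
    have h1 := card_filter_add_card_filter_not
      (s := univ.filter (fun q : V × V => G.Adj q.1 q.2)) (fun q : V × V => H.Adj q.1 q.2)
    rw [filter_filter, filter_filter] at h1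
    have h2 : univ.filter (fun q : V × V => G.Adj q.1 q.2 ∧ H.Adj q.1 q.2) =
        univ.filter (fun q : V × V => H.Adj q.1 q.2) := by
      apply filter_congr
      intro q _
      exact ⟨fun hq => hq.2, fun hq => ⟨hH hq, hq⟩⟩
    rw [h2] at h1
    rw [hD]
    omega
  have hDG : ∀ q ∈ D, G.Adj q.1 q.2 := fun q hq => by
    rw [hD, mem_filter] at hq
    exact hq.2.1
  have hcov : oT G ⊆ ((oT G).filter (fun t => (t.1, t.2.1) ∈ D) ∪
      (oT G).filter (fun t => (t.2.1, t.2.2) ∈ D)) ∪ (oT G).filter (fun t => (t.2.2, t.1) ∈ D) := by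
    rintro ⟨a, b, c⟩ ht
    have ht' := ht
    simp only [oT, mem_filter, mem_univ, true_and] at ht'
    obtain ⟨hab, hbc, hca⟩ := ht'
    rw [mem_union, mem_union, mem_filter, mem_filter, mem_filter]
    by_contra hcon
    simp only [hD, mem_filter, mem_univ, true_and, ht, hab, hbc, hca, not_or, not_not] at hcon
    obtain ⟨⟨h1, h2⟩, h3⟩ := hcon
    exact hf {a, b, c} (is3Clique_iff.2 ⟨a, b, c, h1, h3.symm, h2, rfl⟩)
  have h1 := (card_three G Δ h D hDG ((oT G).filter (fun t => (t.1, t.2.1) ∈ D))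
    (filter_subset _ _)).1 (fun t ht => (mem_filter.1 ht).2)
  have h2 := (card_three G Δ h D hDG ((oT G).filter (fun t => (t.2.1, t.2.2) ∈ D))
    (filter_subset _ _)).2.1 (fun t ht => (mem_filter.1 ht).2)
  have h3 := (card_three G Δ h D hDG ((oT G).filter (fun t => (t.2.2, t.1) ∈ D))
    (filter_subset _ _)).2.2 (fun t ht => (mem_filter.1 ht).2)
  have h4 := ((card_le_card hcov).trans (card_union_le _ _)).trans
    (Nat.add_le_add_right (card_union_le _ _) _)
  have h5 : #(oT G) ≤ 3 * (Δ * #D) := by omega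
  have h6 : (#(oT G) : ℝ) ≤ 3 * (Δ * #D) := by exact_mod_cast h5
  have h7 : (#D : ℝ) = 2 * (#G.edgeFinset - #H.edgeFinset) := by
    have : ((#D + 2 * #H.edgeFinset : ℕ) : ℝ) = ((2 * #G.edgeFinset : ℕ) : ℝ) := by rw [hDc]
    push_cast at this
    linarith
  rw [h7] at h6
  linarith

end

theorem few_triangles (Δ : ℕ) (ε : ℝ) (hε : 0 < ε) :
    ∃ n0 : ℕ, ∀ n : ℕ, n0 ≤ n → ∀ (V : Type) [Fintype V] [DecidableEq V] (G : SimpleGraph V) [DecidableRel G.Adj],
      Fintype.card V ≤ n → (∀ x y, G.Adj x y → #(univ.filter (fun z => G.Adj x z ∧ G.Adj y z)) ≤ Δ) →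
      (#(univ.filter (fun t : V × V × V => G.Adj t.1 t.2.1 ∧ G.Adj t.2.1 t.2.2 ∧ G.Adj t.2.2 t.1)) : ℝ) ≤
        ε * (n : ℝ) ^ 2 := by
  set ε₁ : ℝ := ε / (6 * Δ + 6) with hε₁
  have hε₁0 : 0 < ε₁ := by positivity
  have htr := triangleRemovalBound_pos hε₁0
  obtain ⟨N1, hN1⟩ := exists_nat_gt ((Δ : ℝ) / triangleRemovalBound ε₁)
  rw [div_lt_iff₀ htr] at hN1
  obtain ⟨n0, hn0⟩ := exists_nat_gt ((Δ : ℝ) * N1 ^ 2 / ε)
  rw [div_lt_iff₀ hε] at hn0
  refine ⟨n0 + 1, fun n hn V _ _ G _ hV h => ?_⟩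
  have hnR : (n0 : ℝ) + 1 ≤ n := by exact_mod_cast hn
  have hn0R : (0 : ℝ) ≤ n0 := Nat.cast_nonneg _
  have hVR : (Fintype.card V : ℝ) ≤ n := by exact_mod_cast hV
  have hA : (#(oT G) : ℝ) ≤ Δ * (Fintype.card V : ℝ) ^ 2 := by
    exact_mod_cast card_oT_le G Δ h
  show (#(oT G) : ℝ) ≤ ε * (n : ℝ) ^ 2
  rcases Nat.lt_or_ge N1 (Fintype.card V) with hl | hl
  · have hlR : (N1 : ℝ) < Fintype.card V := by exact_mod_cast hl
    have hN0 : (0 : ℝ) ≤ N1 := Nat.cast_nonneg _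
    have hpos : (0 : ℝ) < Fintype.card V := lt_of_le_of_lt hN0 hlR
    have h1 : (#(G.cliqueFinset 3) : ℝ) <
        triangleRemovalBound ε₁ * (Fintype.card V : ℝ) ^ 3 := by
      have h2 : (#(G.cliqueFinset 3) : ℝ) ≤ #(oT G) := by exact_mod_cast card_clique_le G
      have h3 : (Δ : ℝ) < triangleRemovalBound ε₁ * Fintype.card V := by
        refine hN1.trans ?_
        rw [mul_comm]
        exact mul_lt_mul_of_pos_left hlR htr
      have h4 : (Δ : ℝ) * (Fintype.card V : ℝ) ^ 2 <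
          triangleRemovalBound ε₁ * Fintype.card V * (Fintype.card V : ℝ) ^ 2 :=
        mul_lt_mul_of_pos_right h3 (by positivity)
      have h5 : triangleRemovalBound ε₁ * Fintype.card V * (Fintype.card V : ℝ) ^ 2 =
          triangleRemovalBound ε₁ * (Fintype.card V : ℝ) ^ 3 := by ring
      linarith
    obtain ⟨H, hH, hdec, h2, h3⟩ := triangle_removal h1
    have h4 := card_oT_removal G Δ h H hH h3
    have h5 : (#G.edgeFinset : ℝ) - #H.edgeFinset ≤ ε₁ * (Fintype.card V : ℝ) ^ 2 := by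
      have := h2.le
      push_cast at this
      exact this
    have h6 : 6 * (Δ : ℝ) * (#G.edgeFinset - #H.edgeFinset) ≤
        6 * (Δ : ℝ) * (ε₁ * (Fintype.card V : ℝ) ^ 2) :=
      mul_le_mul_of_nonneg_left h5 (by positivity)
    have h7 : 6 * (Δ : ℝ) * ε₁ ≤ ε := by
      rw [hε₁, mul_div_assoc', div_le_iff₀ (by positivity)]
      nlinarith
    have h8 : (Fintype.card V : ℝ) ^ 2 ≤ (n : ℝ) ^ 2 := by gcongr
    calc (#(oT G) : ℝ) ≤ 6 * (Δ : ℝ) * (ε₁ * (Fintype.card V : ℝ) ^ 2) := h4.trans h6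
      _ = (6 * (Δ : ℝ) * ε₁) * (Fintype.card V : ℝ) ^ 2 := by ring
      _ ≤ ε * (n : ℝ) ^ 2 := by gcongr
  · have hlR : (Fintype.card V : ℝ) ≤ N1 := by exact_mod_cast hl
    have h1 : (Δ : ℝ) * (Fintype.card V : ℝ) ^ 2 ≤ Δ * (N1 : ℝ) ^ 2 := by gcongr
    have h2 : (n0 : ℝ) * ε ≤ ε * (n : ℝ) ^ 2 := by
      rw [mul_comm]
      apply mul_le_mul_of_nonneg_left _ hε.le
      nlinarith
    linarith

end NPL
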