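import Pool.Agent.Lib.NPL.Defs
import Pool.Agent.Lib.NPL.Rem
import Pool.Agent.Lib.Pb736.Turan

/-!
# Module Up: the upper bound
-/

set_option autoImplicit false

namespace NPL

open SimpleGraph Finset Pb736

section

variable {V : Type} [Fintype V] [DecidableEq V] (G : SimpleGraph V) [DecidableRel G.Adj]

/-- ordered triangles -/
def Tri : Finset (V × V × V) :=
  univ.filter (fun t : V × V × V => G.Adj t.1 t.2.1 ∧ G.Adj t.2.1 t.2.2 ∧ G.Adj t.2.2 t.1)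

/-- ordered edges -/
def Ed : Finset (V × V) := univ.filter (fun e : V × V => G.Adj e.1 e.2)

/-- middle edges of paths with three edges -/
def P (x y : V) : Finset (V × V) := univ.filter (fun e : V × V => G.Adj x e.1 ∧ G.Adj e.1 e.2 ∧ G.Adj e.2 y)

/-- neighbours -/
def Nb (x : V) : Finset V := univ.filter (fun z => G.Adj x z)

variable {G}

theorem mem_Tri {t : V × V × V} : t ∈ Tri G ↔ G.Adj t.1 t.2.1 ∧ G.Adj t.2.1 t.2.2 ∧ G.Adj t.2.2 t.1 := by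
  unfold Tri; simp

theorem mem_Ed {e : V × V} : e ∈ Ed G ↔ G.Adj e.1 e.2 := by
  unfold Ed; simp

theorem mem_P {x y : V} {e : V × V} : e ∈ P G x y ↔ G.Adj x e.1 ∧ G.Adj e.1 e.2 ∧ G.Adj e.2 y := by
  unfold P; simp

theorem mem_Nb {x z : V} : z ∈ Nb G x ↔ G.Adj x z := by
  unfold Nb; simp

theorem P_le_Ed (x y : V) : #(P G x y) ≤ #(Ed G) := by
  refine card_le_card fun e he => ?_
  rw [mem_P] at he
  rw [mem_Ed]
  exact he.2.1

theorem P_le_mul (x y : V) : #(P G x y) ≤ #(Nb G x) * #(Nb G y) := by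
  rw [← card_product]
  refine card_le_card fun e he => ?_
  rw [mem_P] at he
  rw [mem_product, mem_Nb, mem_Nb]
  exact ⟨he.1, he.2.2.symm⟩

theorem sum_Nb : ∑ x, #(Nb G x) = #(Ed G) := by
  have h : Ed G = univ.biUnion (fun x => (Nb G x).map ⟨fun z => (x, z), fun a b h => (Prod.ext_iff.1 h).2⟩) := by
    ext e
    rw [mem_Ed, mem_biUnion]
    constructor
    · intro h
      exact ⟨e.1, mem_univ _, mem_map.2 ⟨e.2, mem_Nb.2 h, rfl⟩⟩
    · rintro ⟨x, -, hx⟩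
      obtain ⟨z, hz, rfl⟩ := mem_map.1 hx
      exact mem_Nb.1 hz
  rw [h, card_biUnion]
  · simp
  · intro x _ y _ hxy
    rw [Function.onFun, Finset.disjoint_left]
    intro e he he'
    obtain ⟨z, -, rfl⟩ := mem_map.1 he
    obtain ⟨w, -, hw⟩ := mem_map.1 he'
    exact hxy (Prod.ext_iff.1 hw).1.symm

/-- few vertices of large degree -/
theorem many_deg {s q : ℝ} (hs : 0 < s) (hq : (#(Ed G) : ℝ) ≤ q) (B : Finset V)
    (hB : ∀ v ∈ B, s ≤ #(Nb G v)) : (#B : ℝ) ≤ q / s := by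
  rw [le_div_iff₀ hs]
  calc (#B : ℝ) * s = ∑ _v ∈ B, s := by rw [sum_const, nsmul_eq_mul]
    _ ≤ ∑ v ∈ B, (#(Nb G v) : ℝ) := sum_le_sum hB
    _ ≤ ∑ v, (#(Nb G v) : ℝ) := sum_le_sum_of_subset_of_nonneg (subset_univ _) fun _ _ _ => by positivity
    _ = #(Ed G) := by exact_mod_cast sum_Nb (G := G)
    _ ≤ q := hq

/-- triangles by their last two vertices -/
theorem tri_le {Δ : ℕ} (hΔ : ∀ x y, G.Adj x y → #(univ.filter (fun z => G.Adj x z ∧ G.Adj y z)) ≤ Δ)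
    (S : Finset (V × V × V)) (hS : S ⊆ Tri G) (F : Finset (V × V)) (hF : ∀ t ∈ S, (t.2.1, t.2.2) ∈ F) :
    #S ≤ Δ * #F := by
  refine Finset.card_le_mul_card_image_of_maps_to (f := fun t : V × V × V => t.2) (t := F) ?_ Δ ?_
  · intro t ht
    exact hF t ht
  · intro e he
    by_cases hadj : G.Adj e.1 e.2
    · refine le_trans ?_ (hΔ e.1 e.2 hadj)
      refine Finset.card_le_card_of_injOn (fun t => t.1) ?_ ?_
      · intro t ht
        rw [coe_filter] at ht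
        obtain ⟨h1, h2⟩ := ht
        have h3 := mem_Tri.1 (hS h1)
        rw [← h2]
        exact mem_coe.2 (mem_filter.2 ⟨mem_univ _, h3.1.symm, h3.2.2⟩)
      · intro t ht t' ht' h
        rw [coe_filter] at ht ht'
        exact Prod.ext h (ht.2.trans ht'.2.symm)
    · rw [Finset.card_eq_zero.2]
      · exact Nat.zero_le _
      · rw [Finset.eq_empty_iff_forall_notMem]
        intro t ht
        obtain ⟨h1, h2⟩ := mem_filter.1 ht
        have h3 := mem_Tri.1 (hS h1)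
        rw [← h2] at hadj
        exact hadj h3.2.1

/-- the weight of a triangle -/
def wt (G : SimpleGraph V) [DecidableRel G.Adj] (t : V × V × V) : ℝ :=
  (#(P G t.1 t.2.1) : ℝ) * #(P G t.2.1 t.2.2) * #(P G t.2.2 t.1)

theorem wt_nonneg (t : V × V × V) : 0 ≤ wt G t := by unfold wt; positivity

theorem wt_le {q : ℝ} (hq : (#(Ed G) : ℝ) ≤ q) (t : V × V × V) : wt G t ≤ q ^ 3 := by
  have h : ∀ x y, (#(P G x y) : ℝ) ≤ q := fun x y => le_trans (by exact_mod_cast P_le_Ed x y) hq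
  have hq0 : 0 ≤ q := le_trans (by positivity) hq
  unfold wt
  calc (#(P G t.1 t.2.1) : ℝ) * #(P G t.2.1 t.2.2) * #(P G t.2.2 t.1) ≤ q * q * q := by
        gcongr <;> exact h _ _
    _ = q ^ 3 := by ring

/-- triangles with a first vertex of small degree -/
theorem small_sum {Δ : ℕ} (hΔ : ∀ x y, G.Adj x y → #(univ.filter (fun z => G.Adj x z ∧ G.Adj y z)) ≤ Δ)
    {q L κ : ℝ} (hq : (#(Ed G) : ℝ) ≤ q) (hL : 0 < L) (hLq : L ^ 2 = q) (hκ : 1 ≤ κ) :
    ∑ t ∈ (Tri G).filter (fun t => (#(Nb G t.1) : ℝ) ≤ L / κ ^ 2), wt G t ≤ 2 * Δ * q ^ 4 / κ := by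
  classical
  have hκ0 : 0 < κ := by linarith
  have hq0 : 0 < q := by rw [← hLq]; positivity
  have hP : ∀ x y, (#(P G x y) : ℝ) ≤ q := fun x y => le_trans (by exact_mod_cast P_le_Ed x y) hq
  have hPm : ∀ x y, (#(P G x y) : ℝ) ≤ #(Nb G x) * #(Nb G y) := fun x y => by exact_mod_cast P_le_mul x y
  set S := (Tri G).filter (fun t => (#(Nb G t.1) : ℝ) ≤ L / κ ^ 2) with hS
  set A := S.filter (fun t => κ * L < #(Nb G t.2.1) ∧ κ * L < #(Nb G t.2.2)) with hA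
  set Bg : Finset V := univ.filter (fun v => κ * L < #(Nb G v)) with hBg
  have hBgc : (#Bg : ℝ) ≤ q / (κ * L) := by
    refine many_deg (by positivity) hq Bg ?_
    intro v hv
    exact ((mem_filter.1 hv).2).le
  -- the triangles of `A`
  have hAc : (#A : ℝ) ≤ Δ * (q / κ ^ 2) := by
    have h1 : #A ≤ Δ * #(Bg ×ˢ Bg) := by
      refine tri_le hΔ A (fun t ht => ?_) (Bg ×ˢ Bg) (fun t ht => ?_)
      · exact (mem_filter.1 (mem_filter.1 ht).1).1
      · have h2 := (mem_filter.1 ht).2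
        rw [mem_product]
        exact ⟨mem_filter.2 ⟨mem_univ _, h2.1⟩, mem_filter.2 ⟨mem_univ _, h2.2⟩⟩
    have h2 : (#A : ℝ) ≤ Δ * ((#Bg : ℝ) * #Bg) := by
      rw [card_product] at h1
      exact_mod_cast h1
    refine h2.trans ?_
    have h3 : (#Bg : ℝ) * #Bg ≤ q / (κ * L) * (q / (κ * L)) := by gcongr
    have h4 : q / (κ * L) * (q / (κ * L)) = q / κ ^ 2 := by
      rw [← hLq]; field_simp
    rw [h4] at h3
    gcongr
  have hSc : (#S : ℝ) ≤ Δ * q := by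
    have h1 : #S ≤ Δ * #(Ed G) := by
      refine tri_le hΔ S (fun t ht => (mem_filter.1 ht).1) (Ed G) (fun t ht => ?_)
      rw [mem_Ed]
      exact (mem_Tri.1 (mem_filter.1 ht).1).2.1
    have h2 : (#S : ℝ) ≤ Δ * (#(Ed G) : ℝ) := by exact_mod_cast h1
    refine h2.trans ?_
    gcongr
  have hsplit : ∀ t ∈ S, wt G t ≤ q ^ 3 / κ + (if t ∈ A then q ^ 3 else 0) := by
    intro t ht
    by_cases htA : t ∈ A
    · rw [if_pos htA]
      have := wt_le hq t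
      have h0 : 0 ≤ q ^ 3 / κ := by positivity
      linarith
    · rw [if_neg htA, add_zero]
      have h1 : ¬ (κ * L < #(Nb G t.2.1) ∧ κ * L < #(Nb G t.2.2)) := fun h => htA (mem_filter.2 ⟨ht, h⟩)
      have h2 : (#(Nb G t.1) : ℝ) ≤ L / κ ^ 2 := (mem_filter.1 ht).2
      have key : ∀ y, (#(Nb G y) : ℝ) ≤ κ * L → (#(Nb G t.1) : ℝ) * #(Nb G y) ≤ q / κ := by
        intro y hy
        calc (#(Nb G t.1) : ℝ) * #(Nb G y) ≤ L / κ ^ 2 * (κ * L) := by gcongr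
          _ = q / κ := by rw [← hLq]; field_simp
      rw [not_and_or, not_lt, not_lt] at h1
      unfold wt
      rcases h1 with h1 | h1
      · have h3 := (hPm t.1 t.2.1).trans (key _ h1)
        calc (#(P G t.1 t.2.1) : ℝ) * #(P G t.2.1 t.2.2) * #(P G t.2.2 t.1) ≤ q / κ * q * q := by
              gcongr <;> exact hP _ _
          _ = q ^ 3 / κ := by ring
      · have h3 : (#(P G t.2.2 t.1) : ℝ) ≤ q / κ := by
          refine (hPm t.2.2 t.1).trans ?_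
          rw [mul_comm]
          exact key _ h1
        calc (#(P G t.1 t.2.1) : ℝ) * #(P G t.2.1 t.2.2) * #(P G t.2.2 t.1) ≤ q * q * (q / κ) := by
              gcongr <;> exact hP _ _
          _ = q ^ 3 / κ := by ring
  have hAS : S.filter (fun t => t ∈ A) = A := by
    ext t
    rw [mem_filter]
    exact ⟨fun h => h.2, fun h => ⟨(mem_filter.1 h).1, h⟩⟩
  calc ∑ t ∈ S, wt G t ≤ ∑ t ∈ S, (q ^ 3 / κ + (if t ∈ A then q ^ 3 else 0)) := sum_le_sum hsplit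
    _ = #S * (q ^ 3 / κ) + #A * q ^ 3 := by
        rw [sum_add_distrib, sum_const, nsmul_eq_mul, ← sum_filter, hAS, sum_const, nsmul_eq_mul]
    _ ≤ (Δ * q) * (q ^ 3 / κ) + (Δ * (q / κ ^ 2)) * q ^ 3 := by gcongr
    _ = Δ * q ^ 4 / κ + Δ * q ^ 4 / κ / κ := by field_simp
    _ ≤ Δ * q ^ 4 / κ + Δ * q ^ 4 / κ := by
        have : Δ * q ^ 4 / κ / κ ≤ Δ * q ^ 4 / κ := div_le_self (by positivity) hκ
        linarith
    _ = 2 * Δ * q ^ 4 / κ := by ring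

theorem rot_sum (p : V → Prop) [DecidablePred p] :
    ∑ t ∈ (Tri G).filter (fun t => p t.2.1), wt G t = ∑ t ∈ (Tri G).filter (fun t => p t.1), wt G t := by
  refine Finset.sum_nbij' (fun t => (t.2.1, t.2.2, t.1)) (fun t => (t.2.2, t.1, t.2.1)) ?_ ?_ ?_ ?_ ?_
  · intro t ht
    obtain ⟨h1, h2⟩ := mem_filter.1 ht
    rw [mem_Tri] at h1
    exact mem_filter.2 ⟨mem_Tri.2 ⟨h1.2.1, h1.2.2, h1.1⟩, h2⟩
  · intro t ht
    obtain ⟨h1, h2⟩ := mem_filter.1 ht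
    rw [mem_Tri] at h1
    exact mem_filter.2 ⟨mem_Tri.2 ⟨h1.2.2, h1.1, h1.2.1⟩, h2⟩
  · intro t _; rfl
  · intro t _; rfl
  · intro t _
    unfold wt
    ring

theorem rot_sum' (p : V → Prop) [DecidablePred p] :
    ∑ t ∈ (Tri G).filter (fun t => p t.2.2), wt G t = ∑ t ∈ (Tri G).filter (fun t => p t.1), wt G t := by
  refine Finset.sum_nbij' (fun t => (t.2.2, t.1, t.2.1)) (fun t => (t.2.1, t.2.2, t.1)) ?_ ?_ ?_ ?_ ?_
  · intro t ht
    obtain ⟨h1, h2⟩ := mem_filter.1 ht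
    rw [mem_Tri] at h1
    exact mem_filter.2 ⟨mem_Tri.2 ⟨h1.2.2, h1.1, h1.2.1⟩, h2⟩
  · intro t ht
    obtain ⟨h1, h2⟩ := mem_filter.1 ht
    rw [mem_Tri] at h1
    exact mem_filter.2 ⟨mem_Tri.2 ⟨h1.2.1, h1.2.2, h1.1⟩, h2⟩
  · intro t _; rfl
  · intro t _; rfl
  · intro t _
    unfold wt
    ring

/-- copies of `T9` by their triangle -/
theorem copies_le : (G.labelledCopyCount T9 : ℝ) ≤ ∑ t ∈ Tri G, wt G t := by
  have h1 : G.labelledCopyCount T9 ≤ ∑ t ∈ Tri G, #(P G t.1 t.2.1 ×ˢ P G t.2.1 t.2.2 ×ˢ P G t.2.2 t.1) := by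
    rw [← Finset.card_sigma, TuranAux.label_card]
    have hfin := TuranAux.finite_copy G T9
    let f : Copy T9 G → (Σ _ : V × V × V, (V × V) × (V × V) × (V × V)) := fun φ =>
      ⟨(φ (0, 0), φ (1, 0), φ (2, 0)),
        ((φ (0, 1), φ (0, 2)), (φ (1, 1), φ (1, 2)), (φ (2, 1), φ (2, 2)))⟩
    have hadj : ∀ (φ : Copy T9 G) (v w : Fin 3 × Fin 3), T9.Adj v w → G.Adj (φ v) (φ w) :=
      fun φ v w h => φ.toHom.map_adj h
    have hf : ∀ φ, f φ ∈ (Tri G).sigma (fun t => P G t.1 t.2.1 ×ˢ P G t.2.1 t.2.2 ×ˢ P G t.2.2 t.1) := by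
      intro φ
      rw [mem_sigma, mem_Tri, mem_product, mem_product, mem_P, mem_P, mem_P]
      exact ⟨⟨hadj φ _ _ (by decide), hadj φ _ _ (by decide), hadj φ _ _ (by decide)⟩,
        ⟨hadj φ _ _ (by decide), hadj φ _ _ (by decide), hadj φ _ _ (by decide)⟩,
        ⟨hadj φ _ _ (by decide), hadj φ _ _ (by decide), hadj φ _ _ (by decide)⟩,
        ⟨hadj φ _ _ (by decide), hadj φ _ _ (by decide), hadj φ _ _ (by decide)⟩⟩
    have hinj : Function.Injective f := by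
      intro φ ψ h
      have h1 := congrArg (fun s : (Σ _ : V × V × V, (V × V) × (V × V) × (V × V)) => s.1) h
      have h2 := congrArg (fun s : (Σ _ : V × V × V, (V × V) × (V × V) × (V × V)) => s.2) h
      simp only [f, Prod.mk.injEq] at h1 h2
      apply Copy.ext
      rintro ⟨i, j⟩
      fin_cases i <;> fin_cases j
      · exact h1.1
      · exact h2.1.1
      · exact h2.1.2
      · exact h1.2.1
      · exact h2.2.1.1
      · exact h2.2.1.2
      · exact h1.2.2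
      · exact h2.2.2.1
      · exact h2.2.2.2
    have := Fintype.ofFinite (Copy T9 G)
    rw [Nat.card_eq_fintype_card, ← Finset.card_univ]
    exact Finset.card_le_card_of_injOn f (fun φ _ => hf φ) hinj.injOn
  have h2 : (∑ t ∈ Tri G, #(P G t.1 t.2.1 ×ˢ P G t.2.1 t.2.2 ×ˢ P G t.2.2 t.1) : ℕ) = (∑ t ∈ Tri G, wt G t : ℝ) := by
    push_cast
    refine sum_congr rfl fun t _ => ?_
    rw [card_product, card_product]
    unfold wt
    push_cast
    ring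
  rw [← h2]
  exact_mod_cast h1

/-- triangles inside a vertex set -/
theorem tri_inside {Δ : ℕ} (hΔ : ∀ x y, G.Adj x y → #(univ.filter (fun z => G.Adj x z ∧ G.Adj y z)) ≤ Δ)
    (B : Finset V) {ε : ℝ} {n : ℕ}
    (hn : ∀ (V' : Type) [Fintype V'] [DecidableEq V'] (G' : SimpleGraph V') [DecidableRel G'.Adj],
      Fintype.card V' ≤ n → (∀ x y, G'.Adj x y → #(univ.filter (fun z => G'.Adj x z ∧ G'.Adj y z)) ≤ Δ) →
      (#(univ.filter (fun t : V' × V' × V' => G'.Adj t.1 t.2.1 ∧ G'.Adj t.2.1 t.2.2 ∧ G'.Adj t.2.2 t.1)) : ℝ) ≤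
        ε * (n : ℝ) ^ 2) (hB : #B ≤ n) :
    (#((Tri G).filter (fun t => t.1 ∈ B ∧ t.2.1 ∈ B ∧ t.2.2 ∈ B)) : ℝ) ≤ ε * (n : ℝ) ^ 2 := by
  have h1 := hn {v // v ∈ B} (G.comap (fun v : {v // v ∈ B} => v.1)) (by rw [Fintype.card_coe]; exact hB) (by
    intro x y hxy
    refine le_trans ?_ (hΔ x.1 y.1 hxy)
    refine Finset.card_le_card_of_injOn (fun z => z.1) ?_ ?_
    · intro z hz
      obtain ⟨-, h2⟩ := mem_filter.1 (mem_coe.1 hz)
      exact mem_coe.2 (mem_filter.2 ⟨mem_univ _, h2.1, h2.2⟩)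
    · intro a _ b _ h
      exact Subtype.ext h)
  refine le_trans ?_ h1
  have h2 : #((Tri G).filter (fun t => t.1 ∈ B ∧ t.2.1 ∈ B ∧ t.2.2 ∈ B)) ≤
      #(univ.filter (fun t : {v // v ∈ B} × {v // v ∈ B} × {v // v ∈ B} =>
        (G.comap (fun v : {v // v ∈ B} => v.1)).Adj t.1 t.2.1 ∧
        (G.comap (fun v : {v // v ∈ B} => v.1)).Adj t.2.1 t.2.2 ∧
        (G.comap (fun v : {v // v ∈ B} => v.1)).Adj t.2.2 t.1)) := by
    refine Finset.card_le_card_of_surjOn (fun t => (t.1.1, t.2.1.1, t.2.2.1)) ?_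
    intro t ht
    obtain ⟨h3, h4, h5, h6⟩ := mem_filter.1 (mem_coe.1 ht)
    rw [mem_Tri] at h3
    refine ⟨(⟨t.1, h4⟩, ⟨t.2.1, h5⟩, ⟨t.2.2, h6⟩), ?_, rfl⟩
    exact mem_coe.2 (mem_filter.2 ⟨mem_univ _, h3.1, h3.2.1, h3.2.2⟩)
  exact_mod_cast h2

theorem total {Δ : ℕ} (hΔ : ∀ x y, G.Adj x y → #(univ.filter (fun z => G.Adj x z ∧ G.Adj y z)) ≤ Δ)
    {q L κ ε : ℝ} {n : ℕ} (hq : (#(Ed G) : ℝ) ≤ q) (hL : 0 < L) (hLq : L ^ 2 = q) (hκ : 1 ≤ κ)
    (hn : ∀ (V' : Type) [Fintype V'] [DecidableEq V'] (G' : SimpleGraph V') [DecidableRel G'.Adj],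
      Fintype.card V' ≤ n → (∀ x y, G'.Adj x y → #(univ.filter (fun z => G'.Adj x z ∧ G'.Adj y z)) ≤ Δ) →
      (#(univ.filter (fun t : V' × V' × V' => G'.Adj t.1 t.2.1 ∧ G'.Adj t.2.1 t.2.2 ∧ G'.Adj t.2.2 t.1)) : ℝ) ≤
        ε * (n : ℝ) ^ 2) (hnL : κ ^ 2 * L ≤ n) :
    (G.labelledCopyCount T9 : ℝ) ≤ 6 * Δ * q ^ 4 / κ + ε * (n : ℝ) ^ 2 * q ^ 3 := by
  classical
  have hκ0 : 0 < κ := by linarith
  have hq0 : 0 < q := by rw [← hLq]; positivity
  set B : Finset V := univ.filter (fun v => L / κ ^ 2 < #(Nb G v)) with hB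
  have hBc : #B ≤ n := by
    have h1 : (#B : ℝ) ≤ q / (L / κ ^ 2) := by
      refine many_deg (by positivity) hq B ?_
      intro v hv
      exact ((mem_filter.1 hv).2).le
    have h2 : q / (L / κ ^ 2) = κ ^ 2 * L := by
      rw [← hLq]; field_simp
    rw [h2] at h1
    exact_mod_cast h1.trans hnL
  have hin := tri_inside hΔ B hn hBc
  set s : V → Prop := fun v => (#(Nb G v) : ℝ) ≤ L / κ ^ 2 with hs
  have hsm := small_sum hΔ hq hL hLq hκ
  have h1 : ∑ t ∈ Tri G, wt G t ≤ ∑ t ∈ (Tri G).filter (fun t => s t.1), wt G t +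
      ∑ t ∈ (Tri G).filter (fun t => s t.2.1), wt G t + ∑ t ∈ (Tri G).filter (fun t => s t.2.2), wt G t +
      ∑ t ∈ (Tri G).filter (fun t => t.1 ∈ B ∧ t.2.1 ∈ B ∧ t.2.2 ∈ B), wt G t := by
    rw [sum_filter, sum_filter, sum_filter, sum_filter, ← sum_add_distrib, ← sum_add_distrib, ← sum_add_distrib]
    refine sum_le_sum fun t _ => ?_
    have hw := wt_nonneg (G := G) t
    have hmem : ∀ v, ¬ s v → v ∈ B := fun v hv => mem_filter.2 ⟨mem_univ _, not_le.1 hv⟩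
    by_cases h1 : s t.1
    · rw [if_pos h1]
      have a1 : 0 ≤ (if s t.2.1 then wt G t else 0) := by split_ifs <;> simp [hw]
      have a2 : 0 ≤ (if s t.2.2 then wt G t else 0) := by split_ifs <;> simp [hw]
      have a3 : 0 ≤ (if t.1 ∈ B ∧ t.2.1 ∈ B ∧ t.2.2 ∈ B then wt G t else 0) := by split_ifs <;> simp [hw]
      linarith
    · by_cases h2 : s t.2.1
      · rw [if_neg h1, if_pos h2]
        have a2 : 0 ≤ (if s t.2.2 then wt G t else 0) := by split_ifs <;> simp [hw]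
        have a3 : 0 ≤ (if t.1 ∈ B ∧ t.2.1 ∈ B ∧ t.2.2 ∈ B then wt G t else 0) := by split_ifs <;> simp [hw]
        linarith
      · by_cases h3 : s t.2.2
        · rw [if_neg h1, if_neg h2, if_pos h3]
          have a3 : 0 ≤ (if t.1 ∈ B ∧ t.2.1 ∈ B ∧ t.2.2 ∈ B then wt G t else 0) := by split_ifs <;> simp [hw]
          linarith
        · rw [if_neg h1, if_neg h2, if_neg h3, if_pos ⟨hmem _ h1, hmem _ h2, hmem _ h3⟩]
          linarith
  rw [rot_sum s, rot_sum' s] at h1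
  have h2 : ∑ t ∈ (Tri G).filter (fun t => t.1 ∈ B ∧ t.2.1 ∈ B ∧ t.2.2 ∈ B), wt G t ≤ ε * (n : ℝ) ^ 2 * q ^ 3 := by
    calc ∑ t ∈ (Tri G).filter (fun t => t.1 ∈ B ∧ t.2.1 ∈ B ∧ t.2.2 ∈ B), wt G t
        ≤ ∑ _t ∈ (Tri G).filter (fun t => t.1 ∈ B ∧ t.2.1 ∈ B ∧ t.2.2 ∈ B), q ^ 3 :=
          sum_le_sum fun t _ => wt_le hq t
      _ = (#((Tri G).filter (fun t => t.1 ∈ B ∧ t.2.1 ∈ B ∧ t.2.2 ∈ B)) : ℝ) * q ^ 3 := by
          rw [sum_const, nsmul_eq_mul]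
      _ ≤ _ := by gcongr
  have h3 : ∑ t ∈ (Tri G).filter (fun t => s t.1), wt G t ≤ 2 * Δ * q ^ 4 / κ := hsm
  have h4 : 6 * (Δ : ℝ) * q ^ 4 / κ = 3 * (2 * Δ * q ^ 4 / κ) := by ring
  rw [h4]
  have := copies_le (G := G)
  linarith

end

theorem two_clique {V : Type} [DecidableEq V] (G : SimpleGraph V) (T : Finset V) :
    G.IsNClique 2 T ↔ ∃ a b, G.Adj a b ∧ T = {a, b} := by
  constructor
  · intro h
    obtain ⟨a, b, hab, rfl⟩ := Finset.card_eq_two.1 h.2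
    exact ⟨a, b, h.1 (by simp) (by simp) hab, rfl⟩
  · rintro ⟨a, b, hab, rfl⟩
    refine ⟨?_, Finset.card_pair hab.ne⟩
    intro x hx y hy hxy
    rw [mem_coe, mem_insert, mem_singleton] at hx hy
    rcases hx with rfl | rfl <;> rcases hy with rfl | rfl
    · exact absurd rfl hxy
    · exact hab
    · exact hab.symm
    · exact absurd rfl hxy

theorem ed_le {V : Type} [Fintype V] [DecidableEq V] (G : SimpleGraph V) [DecidableRel G.Adj] :
    #(Ed G) ≤ 2 * cliqueCount G 2 := by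
  have hcc : cliqueCount G 2 = #(G.cliqueFinset 2) := by
    unfold cliqueCount
    refine congrArg Finset.card ?_
    ext T
    simp only [mem_cliqueFinset_iff]
  rw [hcc]
  refine Finset.card_le_mul_card_image_of_maps_to (f := fun e : V × V => ({e.1, e.2} : Finset V)) ?_ 2 ?_
  · intro e he
    rw [mem_Ed] at he
    rw [mem_cliqueFinset_iff, two_clique]
    exact ⟨e.1, e.2, he, rfl⟩
  · intro T hT
    rw [mem_cliqueFinset_iff, two_clique] at hT
    obtain ⟨a, b, hab, rfl⟩ := hT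
    refine (Finset.card_le_card (t := {(a, b), (b, a)}) ?_).trans Finset.card_le_two
    intro e he
    obtain ⟨h1, h2⟩ := mem_filter.1 he
    rw [mem_Ed] at h1
    have h3 : e.1 ∈ ({a, b} : Finset V) := by rw [← h2]; simp
    have h4 : e.2 ∈ ({a, b} : Finset V) := by rw [← h2]; simp
    rw [mem_insert, mem_singleton] at h3 h4 ⊢
    rcases h3 with h3 | h3 <;> rcases h4 with h4 | h4
    · exact absurd (h3.trans h4.symm) h1.ne
    · exact Or.inl (Prod.ext h3 h4)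
    · exact Or.inr (Prod.ext h3 h4)
    · exact absurd (h3.trans h4.symm) h1.ne

theorem up_count (Δ : ℕ) (ε : ℝ) (hε : 0 < ε) : ∃ p0 : ℕ, ∀ p : ℕ, p0 ≤ p → ∀ (V : Type) [Fintype V]
    (G : SimpleGraph V), (split 2 (Δ + 1)).Free G → cliqueCount G 2 = p →
    (G.labelledCopyCount T9 : ℝ) ≤ ε * (p : ℝ) ^ 4 := by
  classical
  set κ : ℝ := max 1 (192 * (Δ + 1) / ε) with hκdef
  have hκ : 1 ≤ κ := le_max_left _ _
  have hκ0 : 0 < κ := by linarith
  have hκε : 192 * (Δ + 1) / ε ≤ κ := le_max_right _ _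
  set ε' : ℝ := ε / (128 * κ ^ 4) with hε'
  have hε'0 : 0 < ε' := by positivity
  obtain ⟨n0, hn0⟩ := few_triangles Δ ε' hε'0
  refine ⟨n0 ^ 2 + 1, ?_⟩
  intro p hp V _ G hfree hcount
  have hp1 : (1 : ℝ) ≤ p := by
    have : 1 ≤ p := by omega
    exact_mod_cast this
  set q : ℝ := 2 * p with hq
  have hq0 : 0 < q := by positivity
  set L : ℝ := √q with hL
  have hLpos : 0 < L := Real.sqrt_pos.2 hq0
  have hLq : L ^ 2 = q := Real.sq_sqrt hq0.le
  have hL1 : 1 ≤ L := by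
    rw [hL, Real.one_le_sqrt]
    linarith
  have hLn0 : (n0 : ℝ) ≤ L := by
    rw [hL]
    apply Real.le_sqrt_of_sq_le
    have : ((n0 : ℝ)) ^ 2 ≤ p := by
      have h : n0 ^ 2 ≤ p := by omega
      exact_mod_cast h
    linarith
  have hκ2 : 1 ≤ κ ^ 2 := one_le_pow₀ hκ
  have hκL : L ≤ κ ^ 2 * L := by nlinarith
  set n : ℕ := ⌈κ ^ 2 * L⌉₊ with hn
  have hn1 : κ ^ 2 * L ≤ n := Nat.le_ceil _
  have hn2 : (n : ℝ) ≤ 2 * (κ ^ 2 * L) := by
    have := Nat.ceil_lt_add_one (by positivity : 0 ≤ κ ^ 2 * L)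
    rw [← hn] at this
    linarith
  have hn3 : n0 ≤ n := by
    have : (n0 : ℝ) ≤ n := by linarith
    exact_mod_cast this
  have hΔ : ∀ x y, G.Adj x y → #(univ.filter (fun z => G.Adj x z ∧ G.Adj y z)) ≤ Δ := by
    intro x y hxy
    refine (free_split_iff G 2 Δ).1 hfree {x, y} ?_ _ ?_
    · rw [two_clique]
      exact ⟨x, y, hxy, rfl⟩
    · intro z hz w hw
      have h1 := (mem_filter.1 hz).2
      rw [mem_insert, mem_singleton] at hw
      rcases hw with rfl | rfl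
      · exact h1.1.symm
      · exact h1.2.symm
  have hEd : (#(Ed G) : ℝ) ≤ q := by
    have h := ed_le G
    rw [hcount] at h
    rw [hq]
    exact_mod_cast h
  have h1 := total hΔ hEd hLpos hLq hκ (hn0 n hn3) hn1
  have h2 : ε' * (n : ℝ) ^ 2 * q ^ 3 ≤ ε / 2 * (p : ℝ) ^ 4 := by
    calc ε' * (n : ℝ) ^ 2 * q ^ 3 ≤ ε' * (2 * (κ ^ 2 * L)) ^ 2 * q ^ 3 := by gcongr
      _ = ε' * 4 * κ ^ 4 * q ^ 4 := by rw [← hLq]; ring
      _ = ε / 2 * (p : ℝ) ^ 4 := by rw [hε', hq]; field_simp; ring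
  have h3 : 6 * Δ * q ^ 4 / κ ≤ ε / 2 * (p : ℝ) ^ 4 := by
    rw [div_le_iff₀ hκ0]
    have h4 : 192 * ((Δ : ℝ) + 1) ≤ κ * ε := by rwa [div_le_iff₀ hε] at hκε
    have h5 : (0 : ℝ) ≤ Δ := by positivity
    calc 6 * Δ * q ^ 4 = 96 * Δ * (p : ℝ) ^ 4 := by rw [hq]; ring
      _ ≤ (κ * ε / 2) * (p : ℝ) ^ 4 := by
          gcongr
          linarith
      _ = ε / 2 * (p : ℝ) ^ 4 * κ := by ring
  calc (G.labelledCopyCount T9 : ℝ) ≤ 6 * Δ * q ^ 4 / κ + ε' * (n : ℝ) ^ 2 * q ^ 3 := h1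
    _ ≤ ε / 2 * (p : ℝ) ^ 4 + ε / 2 * (p : ℝ) ^ 4 := by linarith
    _ = ε * (p : ℝ) ^ 4 := by ring

end NPL
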