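import Pool.Agent.Lib.NPL.Cone
import Pool.Agent.Lib.NPL.Up
import Pool.Agent.Lib.NPL.LowAsy

/-!
# Module Base: the bounds for `T9`

PROOF.  `up_base`: `up_count Δ ε` gives `p0`; for `k = cliqueCount G 2 ≥ p0` use it (`C k ≥ 0`).  For `k < p0`:
`labelled ≤ ∑ t ∈ Tri G, wt G t ≤ #(Tri G) (2k)^3` (`copies_le`, `wt_le`, `ed_le`), `#(Tri G) ≤ Δ #(Ed G) ≤ 2 Δ k` (`tri_le` with `S = Tri G`,
`F = Ed G`), so `labelled ≤ 16 Δ k^4 ≤ 16 Δ p0^3 k`; `C = 16 Δ p0^3`.  (The common neighbour hypothesis `hΔ` of `tri_le` comes from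
`free_split_iff` as in the proof of `up_count`.)
`low_base`: `low_final` with `N = ⌊p^4 exp (-5 √(log p))⌋₊`, which is `≥ 1` for large `p`; `exU_real` gives `Real 2 Δ ω T9 p N`, that is a graph with
`copyCount ≥ N`; `copyCount_le_labelledCopyCount`; `c = 1/2` (`x / 2 ≤ ⌊x⌋₊` for `x ≥ 1`).  For large p: `p^4 exp (-5 √(log p)) ≥ 1` as
`4 log p ≥ 5 √(log p)` when `log p ≥ 2`.
-/

set_option autoImplicit false

namespace NPL

open SimpleGraph Finset Filter Pb736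

theorem up_base (Δ : ℕ) : UpS 2 Δ T9 := by
  intro ε hε
  obtain ⟨p0, hp0⟩ := up_count Δ ε hε
  refine ⟨16 * Δ * (p0 : ℝ) ^ 3, by positivity, ?_⟩
  intro V _ G hfree
  classical
  rcases Nat.lt_or_ge (cliqueCount G 2) p0 with hk | hk
  · have hΔ : ∀ x y, G.Adj x y → #(univ.filter (fun z => G.Adj x z ∧ G.Adj y z)) ≤ Δ := by
      intro x y hxy
      refine (free_split_iff G 2 Δ).1 hfree {x, y} ?_ _ ?_
      · rw [two_clique]
        exact ⟨x, y, hxy, rfl⟩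
      · intro v hv w hw
        rw [mem_filter] at hv
        rw [mem_insert, mem_singleton] at hw
        rcases hw with rfl | rfl
        · exact hv.2.1.symm
        · exact hv.2.2.symm
    have hEd : (#(Ed G) : ℝ) ≤ 2 * (cliqueCount G 2 : ℝ) := by exact_mod_cast ed_le G
    have hTri : (#(Tri G) : ℝ) ≤ Δ * (2 * (cliqueCount G 2 : ℝ)) := by
      have h1 : #(Tri G) ≤ Δ * #(Ed G) := tri_le hΔ (Tri G) Subset.rfl (Ed G) (fun t ht => by
        rw [mem_Tri] at ht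
        rw [mem_Ed]
        exact ht.2.1)
      have h2 : (#(Tri G) : ℝ) ≤ Δ * #(Ed G) := by exact_mod_cast h1
      exact h2.trans (mul_le_mul_of_nonneg_left hEd (by positivity))
    have h3 : (G.labelledCopyCount T9 : ℝ) ≤ #(Tri G) * (2 * (cliqueCount G 2 : ℝ)) ^ 3 := by
      refine (copies_le (G := G)).trans ?_
      refine (sum_le_sum (fun t _ => wt_le hEd t)).trans ?_
      rw [sum_const, nsmul_eq_mul]
    have hkR : (cliqueCount G 2 : ℝ) ≤ p0 := by exact_mod_cast hk.le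
    have hk0 : (0 : ℝ) ≤ cliqueCount G 2 := Nat.cast_nonneg _
    have h4 : (cliqueCount G 2 : ℝ) ^ 3 ≤ (p0 : ℝ) ^ 3 := by gcongr
    calc (G.labelledCopyCount T9 : ℝ)
        ≤ #(Tri G) * (2 * (cliqueCount G 2 : ℝ)) ^ 3 := h3
      _ ≤ (Δ * (2 * (cliqueCount G 2 : ℝ))) * (2 * (cliqueCount G 2 : ℝ)) ^ 3 := by gcongr
      _ = 16 * Δ * (cliqueCount G 2 : ℝ) ^ 3 * (cliqueCount G 2 : ℝ) := by ring
      _ ≤ 16 * Δ * (p0 : ℝ) ^ 3 * (cliqueCount G 2 : ℝ) := by gcongr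
      _ ≤ ε * (cliqueCount G 2 : ℝ) ^ 4 + 16 * Δ * (p0 : ℝ) ^ 3 * (cliqueCount G 2 : ℝ) := by
          have : 0 ≤ ε * (cliqueCount G 2 : ℝ) ^ 4 := by positivity
          linarith
  · have h1 := hp0 _ hk V G hfree rfl
    have h2 : 0 ≤ 16 * Δ * (p0 : ℝ) ^ 3 * (cliqueCount G 2 : ℝ) := by positivity
    linarith

theorem low_base {Δ ω : ℕ} (hΔ : 1 ≤ Δ) (hω : 3 ≤ ω) : LowS 2 Δ ω T9 := by
  refine ⟨1 / 2, by norm_num, ?_⟩
  filter_upwards [low_final hΔ hω, eventually_ge_atTop 8] with p h1 hp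
  have hp8 : (8 : ℝ) ≤ p := by exact_mod_cast hp
  have hp0 : (0 : ℝ) < p := by linarith
  have hlog : 2 ≤ Real.log p := by
    rw [Real.le_log_iff_exp_le hp0]
    have h2 : Real.exp 2 = Real.exp 1 * Real.exp 1 := by
      rw [← Real.exp_add]
      norm_num
    have h3 := Real.exp_one_lt_d9
    have h4 := Real.exp_pos 1
    rw [h2]
    nlinarith
  set x : ℝ := (p : ℝ) ^ 4 * Real.exp (-5 * √(Real.log p)) with hx
  have hx1 : 1 ≤ x := by
    have h2 : (p : ℝ) ^ 4 = Real.exp (4 * Real.log p) := by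
      rw [mul_comm, Real.exp_mul, Real.exp_log hp0]
      norm_cast
    rw [hx, h2, ← Real.exp_add, Real.one_le_exp_iff]
    have h3 : √(Real.log p) ^ 2 = Real.log p := Real.sq_sqrt (by linarith)
    have h4 : 0 ≤ √(Real.log p) := Real.sqrt_nonneg _
    nlinarith
  have hN1 : 1 ≤ ⌊x⌋₊ := Nat.le_floor (by exact_mod_cast hx1)
  obtain ⟨V, iV, G, hG, hc, hN⟩ := exU_real hN1 (h1 ⌊x⌋₊ (Nat.floor_le (by linarith)))
  refine ⟨V, iV, G, hG, hc.le, ?_⟩
  have h5 := Nat.lt_floor_add_one x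
  have h6 : (1 : ℝ) ≤ (⌊x⌋₊ : ℝ) := by exact_mod_cast hN1
  have h7 : (⌊x⌋₊ : ℝ) ≤ (G.labelledCopyCount T9 : ℝ) := by
    exact_mod_cast hN.trans copyCount_le_labelledCopyCount
  have h8 : 1 / 2 * (p : ℝ) ^ 4 * Real.exp (-5 * √(Real.log p)) = x / 2 := by
    rw [hx]
    ring
  rw [h8]
  linarith

end NPL
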