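import Pool.Agent.Lib.NPL.CompDefs
import Pool.Agent.Lib.Pb736.Turan
import Pool.Agent.Lib.Pb736.RealB

/-!
# Module CompBaseLow: `u = 1`, lower bound

PROOF.  `D m` is the graph on `W × Fin m` with `(v, i) ~ (w, j)` iff `H.Adj v w` and `i = j`.  For `g : H.ConnectedComponent → Fin m` the map
`w ↦ (w, g (H.connectedComponentMk w))` is a copy of `H` in `D m`; different `g` give different copies, so `labelled ≥ m^c`.
`cliqueCount (D m) 1 ≤ card W * m` (`count_le`).  `Adm 1 Δ ω (D m)`: `free_split_iff` (the neighbours of `(v, i)` are `(w, i)` with `w` a neighbour of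
`v`), a clique of `D m` projects injectively to a clique of `H`.  With `m = p / card W`: `m^c ≥ (p / (2 card W))^c`.
-/

set_option autoImplicit false

namespace NPL

open SimpleGraph Finset Pb736

namespace CompBaseLowAux

/-- disjoint copies of `H` -/
def DG {W : Type} (H : SimpleGraph W) (m : ℕ) : SimpleGraph (W × Fin m) where
  Adj x y := H.Adj x.1 y.1 ∧ x.2 = y.2
  symm := ⟨fun _ _ h => ⟨h.1.symm, h.2.symm⟩⟩
  loopless := ⟨fun _ h => h.1.ne rfl⟩

variable {W : Type} {H : SimpleGraph W} {m : ℕ}

theorem adm_DG {Δ ω : ℕ} (h : Adm 1 Δ ω H) (m : ℕ) : Adm 1 Δ ω (DG H m) := by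
  classical
  have h1 := (free_split_iff H 1 Δ).1 h.1
  refine ⟨?_, ?_⟩
  · rw [free_split_iff]
    intro T hT C hC
    obtain ⟨t, rfl⟩ := card_eq_one.1 hT.card_eq
    have hadj : ∀ x ∈ C, H.Adj x.1 t.1 ∧ x.2 = t.2 := fun x hx => hC x hx t (mem_singleton_self t)
    have h2 : H.IsNClique 1 {t.1} := by
      refine ⟨?_, card_singleton _⟩
      intro a ha b hb hab
      rw [coe_singleton, Set.mem_singleton_iff] at ha hb
      exact absurd (ha.trans hb.symm) hab
    have h3 := h1 _ h2 (C.image Prod.fst) (by
      intro x hx w hw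
      rw [mem_image] at hx
      obtain ⟨x', hx', rfl⟩ := hx
      rw [mem_singleton] at hw
      rw [hw]
      exact (hadj x' hx').1)
    rw [card_image_of_injOn] at h3
    · exact h3
    · intro x hx y hy hxy
      exact Prod.ext hxy ((hadj x hx).2.trans (hadj y hy).2.symm)
  · intro T hT
    refine h.2 (T.image Prod.fst) ⟨?_, ?_⟩
    · intro a ha b hb hab
      rw [coe_image, Set.mem_image] at ha hb
      obtain ⟨x, hx, rfl⟩ := ha
      obtain ⟨y, hy, rfl⟩ := hb
      exact (hT.isClique hx hy (fun e => hab (by rw [e]))).1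
    · rw [card_image_of_injOn, hT.card_eq]
      intro x hx y hy hxy
      by_contra hne
      exact (hT.isClique hx hy hne).1.ne hxy

/-- the copy given by a choice of positions of the components -/
def cop (g : H.ConnectedComponent → Fin m) : Copy H (DG H m) where
  toHom := ⟨fun w => (w, g (H.connectedComponentMk w)), by
    intro a b hab
    refine ⟨hab, ?_⟩
    show g (H.connectedComponentMk a) = g (H.connectedComponentMk b)
    rw [ConnectedComponent.sound hab.reachable]⟩
  injective' := by
    intro a b hab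
    exact congrArg Prod.fst hab

theorem cop_apply (g : H.ConnectedComponent → Fin m) (w : W) :
    cop g w = (w, g (H.connectedComponentMk w)) := rfl

theorem label_ge [Fintype W] : m ^ Nat.card H.ConnectedComponent ≤ (DG H m).labelledCopyCount H := by
  classical
  have hfin : Finite H.ConnectedComponent :=
    Finite.of_surjective H.connectedComponentMk Quot.mk_surjective
  have h1 : Nat.card (H.ConnectedComponent → Fin m) = m ^ Nat.card H.ConnectedComponent := by
    rw [Nat.card_fun, Nat.card_fin]
  rw [← h1, TuranAux.label_card]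
  have := TuranAux.finite_copy (DG H m) H
  refine Nat.card_le_card_of_injective (fun g => cop g) ?_
  intro g g' h
  funext c
  obtain ⟨w, rfl⟩ : ∃ w, H.connectedComponentMk w = c := Quot.mk_surjective c
  have h3 := congrArg (fun f : Copy H (DG H m) => (f w).2) h
  simpa only [cop_apply] using h3

end CompBaseLowAux

open CompBaseLowAux in
theorem base_lowC {Δ ω : ℕ} {W : Type} [Fintype W] [Nonempty W] {H : SimpleGraph W} (h : Adm 1 Δ ω H) :
    LowC 1 Δ ω (Nat.card H.ConnectedComponent) H := by
  classical
  set w : ℕ := Fintype.card W with hw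
  have hw0 : 0 < w := Fintype.card_pos
  have hw0' : (0 : ℝ) < w := by exact_mod_cast hw0
  refine ⟨(1 / (2 * (w : ℝ))) ^ Nat.card H.ConnectedComponent, by positivity, ?_⟩
  filter_upwards [Filter.eventually_ge_atTop w] with p hp
  refine ⟨W × Fin (p / w), inferInstance, DG H (p / w), adm_DG h _, ?_, ?_⟩
  · refine (TuranAux.count_le _ _).trans ?_
    rw [Nat.choose_one_right, Fintype.card_prod, Fintype.card_fin]
    exact Nat.mul_div_le p w
  · have h1 : (((p / w : ℕ) : ℝ)) ^ Nat.card H.ConnectedComponent ≤
        ((DG H (p / w)).labelledCopyCount H : ℝ) := by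
      exact_mod_cast label_ge
    refine le_trans ?_ h1
    rw [← mul_pow]
    refine pow_le_pow_left₀ (by positivity) ?_ _
    have h2 : 1 ≤ p / w := (Nat.one_le_div_iff hw0).2 hp
    have h3 : p < w * (p / w + 1) := Nat.lt_mul_div_succ p hw0
    have h4 : (p : ℝ) < w * ((p / w : ℕ) + 1) := by exact_mod_cast h3
    have h5 : (1 : ℝ) ≤ ((p / w : ℕ) : ℝ) := by exact_mod_cast h2
    rw [one_div, inv_mul_le_iff₀ (by positivity)]
    nlinarith
end NPL
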