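import Pool.Agent.Lib.NPL.CompDefs
import Pool.Agent.Lib.Pb736.Turan
import Pool.Agent.Lib.Pb736.RealB

/-!
# Module CompBaseUp: `u = 1`, upper bound

PROOF.  Let `K` run over `H.ConnectedComponent`.  A copy of `H` in `G` restricts to a copy of `H.induce K.supp` in `G` for every `K`, and is determined
by these restrictions, so `labelled (H, G) ≤ ∏ K, labelled (H.induce K.supp, G)` (`TuranAux.label_card`, `Nat.card_pi`,
`TuranAux.finite_copy`).  `H.induce K.supp` is connected, so it is `Generated 1` (`Reach 1 _ {v} w` along a walk: `Reach.step {w'} w`), and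
`labelled_le` (Pb736.Upper; needs `Adm 1 Δ ω' G`, take `ω' = Fintype.card V`) gives `labelled (H.induce K.supp, G) ≤ 1! * k_1(G) * Δ ^ (..)`.
So `labelled (H, G) ≤ C k_1(G)^c` with `C = ∏ K, Δ ^ (card K.supp - 1)` (or simply `C = (Δ+1) ^ (card W * c)`).
-/

set_option autoImplicit false

namespace NPL

open SimpleGraph Finset Pb736

theorem clique_one {W : Type} (H : SimpleGraph W) (v : W) : H.IsNClique 1 {v} := by
  refine ⟨?_, card_singleton v⟩
  intro a ha b hb hab
  rw [Finset.mem_coe, mem_singleton] at ha hb
  exact absurd (ha.trans hb.symm) hab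

theorem connected_gen {W : Type} {H : SimpleGraph W} (h : H.Connected) : Generated 1 H := by
  obtain ⟨v⟩ := h.nonempty
  refine ⟨{v}, clique_one H v, ?_⟩
  have key : ∀ (a b : W), H.Walk a b → Reach 1 H {v} a → Reach 1 H {v} b := by
    intro a b p
    induction p with
    | nil => exact fun h => h
    | @cons a c b hac p ih =>
      intro ha
      refine ih (Reach.step {a} c (clique_one H a) ?_ ?_)
      · intro w hw
        rw [mem_singleton] at hw
        rw [hw]
        exact ha
      · intro w hw
        rw [mem_singleton] at hw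
        rw [hw]
        exact hac.symm
  intro w
  obtain ⟨p⟩ := h.preconnected v w
  exact key v w p (Reach.base v (mem_singleton_self v))

theorem base_upC (Δ : ℕ) {W : Type} [Fintype W] (H : SimpleGraph W) : UpC 1 Δ (Nat.card H.ConnectedComponent) H := by
  classical
  have hfinC : Finite H.ConnectedComponent := Quot.finite _
  have : Fintype H.ConnectedComponent := Fintype.ofFinite _
  refine ⟨∏ K : H.ConnectedComponent, Δ ^ (Fintype.card K.supp - 1), ?_⟩
  intro V _ G hfree
  have hG : Adm 1 Δ (Fintype.card V) G := ⟨hfree, cliqueFree_of_card_lt (Nat.lt_succ_self _)⟩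
  have hK : ∀ K : H.ConnectedComponent, Nat.card (Copy (H.induce K.supp) G) ≤
      cliqueCount G 1 * Δ ^ (Fintype.card K.supp - 1) := by
    intro K
    have hc : (H.induce K.supp).Connected := K.connected_toSimpleGraph
    have h1 := labelled_le hG (connected_gen hc)
    rw [TuranAux.label_card, Nat.factorial_one, one_mul] at h1
    exact h1
  have hfin : ∀ K : H.ConnectedComponent, Finite (Copy (H.induce K.supp) G) := fun K =>
    TuranAux.finite_copy G (H.induce K.supp)
  let F : Copy H G → (∀ K : H.ConnectedComponent, Copy (H.induce K.supp) G) := fun φ K =>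
    { toHom :=
        { toFun := fun x => φ x.1
          map_rel' := fun {a b} hab => φ.toHom.map_adj hab }
      injective' := fun a b h => Subtype.ext (φ.injective h) }
  have hinj : Function.Injective F := by
    intro φ ψ h
    ext w
    have h1 : F φ (H.connectedComponentMk w) ⟨w, rfl⟩ = F ψ (H.connectedComponentMk w) ⟨w, rfl⟩ := by
      rw [h]
    exact h1
  rw [TuranAux.label_card]
  calc Nat.card (Copy H G) ≤ Nat.card (∀ K : H.ConnectedComponent, Copy (H.induce K.supp) G) :=
        Nat.card_le_card_of_injective F hinj
    _ = ∏ K : H.ConnectedComponent, Nat.card (Copy (H.induce K.supp) G) := Nat.card_pi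
    _ ≤ ∏ K : H.ConnectedComponent, (cliqueCount G 1 * Δ ^ (Fintype.card K.supp - 1)) :=
        Finset.prod_le_prod' fun K _ => hK K
    _ = (∏ K : H.ConnectedComponent, Δ ^ (Fintype.card K.supp - 1)) *
          cliqueCount G 1 ^ (Nat.card H.ConnectedComponent) := by
        rw [Finset.prod_mul_distrib, Finset.prod_const, Finset.card_univ, Nat.card_eq_fintype_card,
          mul_comm]

end NPL
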