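import Pool.Agent.Lib.NPL.Cone

/-!
# Graphs with at least `u - 1` dominating vertices: definitions
-/

set_option autoImplicit false

namespace NPL

open SimpleGraph Finset Pb736

/-- `K_j ∨ H`: a clique on `j` vertices, the graph `H`, and all edges between them -/
def KJ (j : ℕ) {W : Type} (H : SimpleGraph W) : SimpleGraph (Fin j ⊕ W) where
  Adj x y := match x, y with
    | .inl a, .inl b => a ≠ b
    | .inl _, .inr _ => True
    | .inr _, .inl _ => True
    | .inr a, .inr b => H.Adj a b
  symm := ⟨fun x y h => by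
    cases x <;> cases y <;> first | exact SimpleGraph.Adj.symm h | exact Ne.symm h | exact h⟩
  loopless := ⟨fun x h => by
    cases x
    · exact h rfl
    · exact SimpleGraph.Adj.ne h rfl⟩

/-- the upper bound: `labelled copies ≤ C k_u^c` -/
def UpC (u Δ c : ℕ) {W : Type} [Fintype W] (H : SimpleGraph W) : Prop :=
  ∃ C : ℕ, ∀ (V : Type) [Fintype V] (G : SimpleGraph V), (split u (Δ + 1)).Free G →
    G.labelledCopyCount H ≤ C * cliqueCount G u ^ c

/-- the lower bound -/
def LowC (u Δ ω c : ℕ) {W : Type} [Fintype W] (H : SimpleGraph W) : Prop :=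
  ∃ a : ℝ, 0 < a ∧ ∀ᶠ p : ℕ in Filter.atTop, ∃ (V : Type) (_ : Fintype V) (G : SimpleGraph V), Adm u Δ ω G ∧
    cliqueCount G u ≤ p ∧ a * (p : ℝ) ^ c ≤ (G.labelledCopyCount H : ℝ)

end NPL
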