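import Pool.Agent.Lib.NPL.Cone
import Pool.Agent.Lib.Pb736.Turan

/-!
# Module ConeLow: the lower bound passes to the cone

PROOF.  (1) `cone_adm`: `free_split_iff` for `cone G`: a `(u+1)`-clique `Q` of `cone G`: if it contains `none`, it is `none` and a `u`-clique `T` of
`G`, its common neighbours are common neighbours of `T` in `G`, at most `Δ`.  If not, `Q` is a `(u+1)`-clique of `G`; take `q ∈ Q`, `T = Q \ {q}` is a
`u`-clique of `G`, `q` and all common neighbours of `Q` in `G` are common neighbours of `T`, so `Q` has at most `Δ - 1` common neighbours in `G` and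
at most `Δ` in `cone G`.  `CliqueFree (ω+2)`: a clique of `cone G` minus `none` is a clique of `G`.
(2) `cone_count`: a `(u+1)`-clique of `cone G` either contains `none` (at most `k_u(G)` of them) or is a `(u+1)`-clique `Q` of `G`; the map
`Q ↦` (some `u`-subset `T`) has fibres of size at most `Δ` (`Q = T ∪ {q}`, `q` a common neighbour of `T`), so `k_(u+1)(G) ≤ Δ k_u(G)`.
(3) `cone_label`: extend a copy of `H` in `G` by `none ↦ none` (`TuranAux.label_card`, `TuranAux.finite_copy`).
-/

set_option autoImplicit false

namespace NPL

open SimpleGraph Finset Pb736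

theorem sub_exists' {u : ℕ} {V : Type} {G : SimpleGraph V} (Q : Finset (Option V)) (hQ : (cone G).IsNClique (u + 1) Q) :
    ∃ x ∈ Q, ∃ T : Finset V, G.IsNClique u T ∧ ∀ y : V, y ∈ T ↔ some y ∈ Q ∧ some y ≠ x := by
  classical
  obtain ⟨x, hx, hx2⟩ : ∃ x ∈ Q, none ∈ Q → x = none := by
    by_cases h : none ∈ Q
    · exact ⟨none, h, fun _ => rfl⟩
    · have h1 : 0 < #Q := by rw [hQ.card_eq]; omega
      obtain ⟨x, hx⟩ := card_pos.1 h1
      exact ⟨x, hx, fun h' => absurd h' h⟩
  have hmap : (eraseNone (Q.erase x)).map Function.Embedding.some = Q.erase x := by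
    ext y
    rw [mem_map]
    constructor
    · rintro ⟨z, hz, rfl⟩
      exact mem_eraseNone.1 hz
    · intro hy
      cases y with
      | none =>
        have h2 := mem_erase.1 hy
        exact absurd (hx2 h2.2).symm h2.1
      | some y => exact ⟨y, mem_eraseNone.2 hy, rfl⟩
  refine ⟨x, hx, eraseNone (Q.erase x), ⟨?_, ?_⟩, ?_⟩
  · intro a ha b hb hab
    have h1 := (mem_erase.1 (mem_eraseNone.1 ha)).2
    have h2 := (mem_erase.1 (mem_eraseNone.1 hb)).2
    exact hQ.isClique h1 h2 (fun h => hab (Option.some_injective _ h))
  · rw [← card_map Function.Embedding.some, hmap, card_erase_of_mem hx, hQ.card_eq]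
    rfl
  · intro y
    rw [mem_eraseNone, mem_erase, and_comm]

theorem cone_adm {u Δ ω : ℕ} {V : Type} {G : SimpleGraph V} (h : Adm u Δ ω G) : Adm (u + 1) Δ (ω + 1) (cone G) := by
  classical
  obtain ⟨h1, h2⟩ := h
  rw [free_split_iff] at h1
  refine ⟨?_, ?_⟩
  · rw [free_split_iff]
    intro Q hQ C hC
    obtain ⟨x, hx, T, hT, hTm⟩ := sub_exists' Q hQ
    have hxC : x ∉ C := fun hxC => (hC x hxC x hx).ne rfl
    have h3 := h1 T hT (eraseNone (insert x C)) (by
      intro y hy w hw
      rw [mem_eraseNone, mem_insert] at hy
      obtain ⟨hwQ, hwx⟩ := (hTm w).1 hw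
      rcases hy with hy | hy
      · have h4 : (some y : Option V) ≠ some w := fun h5 => hwx (h5 ▸ hy)
        exact hQ.isClique (hy ▸ hx) hwQ h4
      · exact hC (some y) hy (some w) hwQ)
    have h4 : #(insert x C) ≤ #(eraseNone (insert x C)) + 1 := by
      calc #(insert x C) ≤ #(insert none ((eraseNone (insert x C)).map Function.Embedding.some)) := by
            refine card_le_card ?_
            intro y hy
            cases y with
            | none => exact mem_insert_self _ _
            | some y => exact mem_insert_of_mem (mem_map_of_mem _ (mem_eraseNone.2 hy))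
        _ ≤ _ := by
            refine (card_insert_le _ _).trans ?_
            rw [card_map]
    rw [card_insert_of_notMem hxC] at h4
    omega
  · intro Q hQ
    obtain ⟨x, -, T, hT, -⟩ := sub_exists' Q hQ
    exact h2 T hT

theorem sub_exists {u : ℕ} {V : Type} {G : SimpleGraph V} (Q : Finset (Option V)) (hQ : (cone G).IsNClique (u + 1) Q) :
    ∃ T : Finset V, G.IsNClique u T ∧ T.map Function.Embedding.some ⊆ Q := by
  classical
  obtain ⟨x, hx, hx2⟩ : ∃ x ∈ Q, none ∈ Q → x = none := by
    by_cases h : none ∈ Q
    · exact ⟨none, h, fun _ => rfl⟩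
    · have h1 : 0 < #Q := by rw [hQ.card_eq]; omega
      obtain ⟨x, hx⟩ := card_pos.1 h1
      exact ⟨x, hx, fun h' => absurd h' h⟩
  have hmap : (eraseNone (Q.erase x)).map Function.Embedding.some = Q.erase x := by
    ext y
    rw [mem_map]
    constructor
    · rintro ⟨z, hz, rfl⟩
      exact mem_eraseNone.1 hz
    · intro hy
      cases y with
      | none =>
        have h2 := mem_erase.1 hy
        exact absurd (hx2 h2.2).symm h2.1
      | some y => exact ⟨y, mem_eraseNone.2 hy, rfl⟩
  refine ⟨eraseNone (Q.erase x), ⟨?_, ?_⟩, ?_⟩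
  · intro a ha b hb hab
    have h1 := (mem_erase.1 (mem_eraseNone.1 ha)).2
    have h2 := (mem_erase.1 (mem_eraseNone.1 hb)).2
    exact hQ.isClique h1 h2 (fun h => hab (Option.some_injective _ h))
  · rw [← card_map Function.Embedding.some, hmap, card_erase_of_mem hx, hQ.card_eq]
    rfl
  · rw [hmap]
    exact erase_subset _ _

theorem cone_count {u Δ : ℕ} {V : Type} [Fintype V] {G : SimpleGraph V} (h : (split u (Δ + 1)).Free G) :
    cliqueCount (cone G) (u + 1) ≤ (Δ + 1) * cliqueCount G u := by
  classical
  rw [free_split_iff] at h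
  rw [BlowAux.cliqueCount_eq (cone G) (u + 1) (univ.filter fun T => (cone G).IsNClique (u + 1) T) (by simp),
    BlowAux.cliqueCount_eq G u (univ.filter fun T => G.IsNClique u T) (by simp)]
  have hex : ∀ Q : Finset (Option V), ∃ T : Finset V, (cone G).IsNClique (u + 1) Q →
      G.IsNClique u T ∧ T.map Function.Embedding.some ⊆ Q := by
    intro Q
    by_cases hQ : (cone G).IsNClique (u + 1) Q
    · obtain ⟨T, hT⟩ := sub_exists Q hQ
      exact ⟨T, fun _ => hT⟩
    · exact ⟨∅, fun h' => absurd h' hQ⟩
  choose f hf using hex
  refine card_le_mul_card_image_of_maps_to (f := f) ?_ (Δ + 1) ?_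
  · intro Q hQ
    rw [mem_filter] at hQ ⊢
    exact ⟨mem_univ _, (hf Q hQ.2).1⟩
  · intro T hT
    rw [mem_filter] at hT
    have hC := h T hT.2 (univ.filter fun x => ∀ w ∈ T, G.Adj x w) (by
      intro x hx
      exact (mem_filter.1 hx).2)
    calc #((univ.filter fun Q => (cone G).IsNClique (u + 1) Q).filter fun Q => f Q = T)
        ≤ #((insert none ((univ.filter fun x => ∀ w ∈ T, G.Adj x w).map Function.Embedding.some)).image
            fun y => insert y (T.map Function.Embedding.some)) := by
          refine card_le_card ?_
          intro Q hQ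
          rw [mem_filter, mem_filter] at hQ
          obtain ⟨⟨-, hQ⟩, hfQ⟩ := hQ
          have h1 := (hf Q hQ).2
          rw [hfQ] at h1
          have h2 : #(Q \ T.map Function.Embedding.some) = 1 := by
            rw [card_sdiff_of_subset h1, card_map, hT.2.card_eq, hQ.card_eq]
            omega
          obtain ⟨y, hy⟩ := card_eq_one.1 h2
          have hyQ : y ∈ Q \ T.map Function.Embedding.some := by rw [hy]; exact mem_singleton_self y
          rw [mem_sdiff] at hyQ
          rw [mem_image]
          refine ⟨y, ?_, ?_⟩
          · cases y with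
            | none => exact mem_insert_self _ _
            | some y =>
              refine mem_insert_of_mem (mem_map_of_mem _ ?_)
              rw [mem_filter]
              refine ⟨mem_univ _, fun w hw => ?_⟩
              have h3 : (some w : Option V) ∈ T.map Function.Embedding.some := mem_map_of_mem _ hw
              have h4 : (some y : Option V) ≠ some w := fun h5 => hyQ.2 (h5 ▸ h3)
              exact hQ.isClique hyQ.1 (h1 h3) h4
          · have h5 : Q = (Q \ T.map Function.Embedding.some) ∪ T.map Function.Embedding.some := by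
              rw [sdiff_union_of_subset h1]
            rw [hy] at h5
            rw [h5]
            rfl
      _ ≤ #(insert none ((univ.filter fun x => ∀ w ∈ T, G.Adj x w).map Function.Embedding.some)) := card_image_le
      _ ≤ _ := by
          refine (card_insert_le _ _).trans ?_
          rw [card_map]
          omega

/-- extend a copy by the apex -/
def coneCopy {V W : Type} {G : SimpleGraph V} {H : SimpleGraph W} (f : Copy H G) : Copy (cone H) (cone G) where
  toHom := ⟨Option.map f, by
    intro a b hab
    cases a <;> cases b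
    · exact hab
    · trivial
    · trivial
    · exact f.toHom.map_rel hab⟩
  injective' := Option.map_injective f.injective

theorem cone_label {V W : Type} [Fintype V] [Fintype W] (G : SimpleGraph V) (H : SimpleGraph W) :
    G.labelledCopyCount H ≤ (cone G).labelledCopyCount (cone H) := by
  rw [TuranAux.label_card, TuranAux.label_card]
  have := TuranAux.finite_copy (cone G) (cone H)
  refine Nat.card_le_card_of_injective (fun f : Copy H G => coneCopy f) ?_
  intro f g h
  ext w
  have h1 := congrArg (fun k : Copy (cone H) (cone G) => k (some w)) h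
  exact Option.some_injective _ h1

end NPL
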