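import Pool.Agent.Lib.NPL.Up
import Pool.Agent.Lib.NPL.LowAsy

/-!
# Module Fin: no power law
-/

set_option autoImplicit false

namespace NPL

open SimpleGraph Finset Filter Pb736 Topology

theorem up_final (Δ ω : ℕ) (ε : ℝ) (hε : 0 < ε) :
    ∀ᶠ p : ℕ in atTop, exU 2 Δ ω T9 p ≠ ⊤ ∧ ((exU 2 Δ ω T9 p).toNat : ℝ) ≤ ε * (p : ℝ) ^ 4 := by
  obtain ⟨p0, hp0⟩ := up_count Δ ε hε
  filter_upwards [eventually_ge_atTop p0] with p hp
  have h1 : exU 2 Δ ω T9 p ≤ ((⌊ε * (p : ℝ) ^ 4⌋₊ : ℕ) : ℕ∞) := by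
    refine exU_le ?_
    rintro N ⟨V, iV, G, hG, hc, hN⟩
    have h2 := hp0 p hp V G hG.1 hc
    have h3 : (N : ℝ) ≤ G.labelledCopyCount T9 := by
      exact_mod_cast hN.trans copyCount_le_labelledCopyCount
    exact Nat.le_floor (h3.trans h2)
  have h4 : exU 2 Δ ω T9 p ≠ ⊤ := ne_top_of_le_ne_top (ENat.natCast_ne_top _) h1
  refine ⟨h4, ?_⟩
  have h5 : (exU 2 Δ ω T9 p).toNat ≤ ⌊ε * (p : ℝ) ^ 4⌋₊ := by
    have h6 := ENat.toNat_le_toNat h1 (ENat.natCast_ne_top _)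
    rwa [ENat.toNat_natCast] at h6
  have h7 : ((exU 2 Δ ω T9 p).toNat : ℝ) ≤ (⌊ε * (p : ℝ) ^ 4⌋₊ : ℝ) := by exact_mod_cast h5
  exact h7.trans (Nat.floor_le (by positivity))

/-- lower bound for the value itself -/
theorem low_value {Δ ω : ℕ} (hΔ : 1 ≤ Δ) (hω : 3 ≤ ω) :
    ∀ᶠ p : ℕ in atTop, (p : ℝ) ^ 4 * Real.exp (-5 * √(Real.log p)) - 1 ≤ ((exU 2 Δ ω T9 p).toNat : ℝ) := by
  filter_upwards [low_final hΔ hω, up_final Δ ω 1 one_pos] with p h1 h2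
  have h0 : 0 ≤ (p : ℝ) ^ 4 * Real.exp (-5 * √(Real.log p)) := by positivity
  have h3 := h1 ⌊(p : ℝ) ^ 4 * Real.exp (-5 * √(Real.log p))⌋₊ (Nat.floor_le h0)
  have h4 : ⌊(p : ℝ) ^ 4 * Real.exp (-5 * √(Real.log p))⌋₊ ≤ (exU 2 Δ ω T9 p).toNat := by
    have h6 := ENat.toNat_le_toNat h3 h2.1
    rwa [ENat.toNat_natCast] at h6
  have h5 : (⌊(p : ℝ) ^ 4 * Real.exp (-5 * √(Real.log p))⌋₊ : ℝ) ≤ ((exU 2 Δ ω T9 p).toNat : ℝ) := by
    exact_mod_cast h4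
  have h6 := Nat.lt_floor_add_one ((p : ℝ) ^ 4 * Real.exp (-5 * √(Real.log p)))
  linarith

theorem no_power {Δ ω : ℕ} (hΔ : 1 ≤ Δ) (hω : 3 ≤ ω) :
    ¬ ∃ α c C : ℝ, 0 < c ∧ ∀ᶠ p : ℕ in atTop, c * (p : ℝ) ^ α ≤ ((exU 2 Δ ω T9 p).toNat : ℝ) ∧
      ((exU 2 Δ ω T9 p).toNat : ℝ) ≤ C * (p : ℝ) ^ α := by
  rintro ⟨α, c, C, hc, h⟩
  by_cases hα : 4 ≤ α
  · -- the upper bound is violated
    have h1 := (h.and ((up_final Δ ω (c / 2) (by positivity)).and (eventually_ge_atTop 1))).exists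
    obtain ⟨p, ⟨h2, -⟩, ⟨-, h3⟩, hp⟩ := h1
    have hp' : (1 : ℝ) ≤ p := by exact_mod_cast hp
    have h4 : (p : ℝ) ^ (4 : ℕ) ≤ (p : ℝ) ^ α := by
      rw [← Real.rpow_natCast]
      exact Real.rpow_le_rpow_of_exponent_le hp' (by exact_mod_cast hα)
    have h5 : (0 : ℝ) < (p : ℝ) ^ (4 : ℕ) := by positivity
    have h6 : c * (p : ℝ) ^ (4 : ℕ) ≤ c / 2 * (p : ℝ) ^ (4 : ℕ) :=
      (mul_le_mul_of_nonneg_left h4 hc.le).trans (h2.trans h3)
    nlinarith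
  · push Not at hα
    -- the lower bound is violated
    set β : ℝ := max α 0 with hβ
    have hβ0 : 0 ≤ β := le_max_right _ _
    have hβ4 : β < 4 := max_lt hα (by norm_num)
    have hlim : Tendsto (fun p : ℕ => (p : ℝ) ^ (4 - β) * Real.exp (-5 * √(Real.log p))) atTop atTop := by
      have e1 : Tendsto (fun x : ℝ => (4 - β) * x ^ 2 - 5 * x) atTop atTop := by
        have : (fun x : ℝ => (4 - β) * x ^ 2 - 5 * x) = fun x => x * ((4 - β) * x - 5) := by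
          funext x; ring
        rw [this]
        exact tendsto_id.atTop_mul_atTop₀
          (tendsto_atTop_add_const_right _ _ (tendsto_id.const_mul_atTop (by linarith : (0 : ℝ) < 4 - β)))
      have e2 : Tendsto (fun p : ℕ => √(Real.log p)) atTop atTop :=
        Real.tendsto_sqrt_atTop.comp (Real.tendsto_log_atTop.comp tendsto_natCast_atTop_atTop)
      have e3 := Real.tendsto_exp_atTop.comp (e1.comp e2)
      refine e3.congr' ?_
      filter_upwards [eventually_ge_atTop 1] with p hp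
      have hp' : (0 : ℝ) < p := by exact_mod_cast hp
      have hlog : 0 ≤ Real.log p := Real.log_nonneg (by exact_mod_cast hp)
      simp only [Function.comp_apply]
      rw [Real.rpow_def_of_pos hp', ← Real.exp_add, Real.sq_sqrt hlog]
      congr 1
      ring
    obtain ⟨p, ⟨-, h2⟩, h3, h4, hp⟩ := (h.and ((low_value hΔ hω).and ((hlim.eventually_ge_atTop (|C| + 2)).and
      (eventually_ge_atTop 1)))).exists
    have hp' : (1 : ℝ) ≤ p := by exact_mod_cast hp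
    have hp0 : (0 : ℝ) < p := by linarith
    have h5 : (1 : ℝ) ≤ (p : ℝ) ^ β := Real.one_le_rpow hp' hβ0
    have h6 : C * (p : ℝ) ^ α ≤ |C| * (p : ℝ) ^ β := by
      have a1 : (p : ℝ) ^ α ≤ (p : ℝ) ^ β := Real.rpow_le_rpow_of_exponent_le hp' (le_max_left _ _)
      calc C * (p : ℝ) ^ α ≤ |C| * (p : ℝ) ^ α := by
            gcongr
            exact le_abs_self C
        _ ≤ |C| * (p : ℝ) ^ β := by gcongr
    have h7 : (p : ℝ) ^ (4 : ℕ) = (p : ℝ) ^ β * (p : ℝ) ^ (4 - β) := by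
      rw [← Real.rpow_add hp0, ← Real.rpow_natCast]
      congr 1
      push_cast
      ring
    have h8 : (|C| + 2) * (p : ℝ) ^ β ≤ (p : ℝ) ^ (4 : ℕ) * Real.exp (-5 * √(Real.log p)) := by
      rw [h7, mul_assoc, mul_comm (|C| + 2)]
      gcongr
    nlinarith

end NPL
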