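import Pool.Agent.Lib.NPL.ConeUp
import Pool.Agent.Lib.NPL.ConeLow
import Pool.Agent.Lib.NPL.Base
import Pool.Agent.Lib.NPL.Fin

/-!
# Module ConeFin: no power law for all `u ≥ 2`
-/

set_option autoImplicit false

namespace NPL

open SimpleGraph Finset Filter Pb736 Topology

theorem labelled_iso {V W W' : Type} [Fintype V] [Fintype W] [Fintype W'] {H : SimpleGraph W}
    {H' : SimpleGraph W'} (φ : H ≃g H') (G : SimpleGraph V) : G.labelledCopyCount H = G.labelledCopyCount H' := by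
  rw [TuranAux.label_card, TuranAux.label_card]
  refine Nat.card_congr ⟨fun f => f.comp φ.symm.toCopy, fun f => f.comp φ.toCopy, ?_, ?_⟩
  · intro f
    ext x
    show f (φ.symm (φ x)) = f x
    rw [RelIso.symm_apply_apply]
  · intro f
    ext x
    show f (φ (φ.symm x)) = f x
    rw [RelIso.apply_symm_apply]

theorem UpS.iso {u Δ : ℕ} {W W' : Type} [Fintype W] [Fintype W'] {H : SimpleGraph W} {H' : SimpleGraph W'}
    (φ : H ≃g H') (h : UpS u Δ H) : UpS u Δ H' := by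
  intro ε hε
  obtain ⟨C, hC, hG⟩ := h ε hε
  refine ⟨C, hC, fun V _ G hfree => ?_⟩
  rw [← labelled_iso φ]
  exact hG V G hfree

theorem LowS.iso {u Δ ω : ℕ} {W W' : Type} [Fintype W] [Fintype W'] {H : SimpleGraph W} {H' : SimpleGraph W'}
    (φ : H ≃g H') (h : LowS u Δ ω H) : LowS u Δ ω H' := by
  obtain ⟨c, hc, hp⟩ := h
  refine ⟨c, hc, hp.mono ?_⟩
  rintro p ⟨V, iV, G, hG, hk, hl⟩
  exact ⟨V, iV, G, hG, hk, by rwa [← labelled_iso φ]⟩

/-- `T9` is `K_0 ∨ T9` -/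
def isoZero : T9 ≃g TU 0 where
  toEquiv := (Equiv.emptySum (Fin 0) (Fin 3 × Fin 3)).symm
  map_rel_iff' := Iff.rfl

/-- `cone (K_j ∨ T9) = K_(j+1) ∨ T9` -/
def isoSucc (j : ℕ) : cone (TU j) ≃g TU (j + 1) where
  toFun x := match x with
    | none => .inl 0
    | some (.inl i) => .inl i.succ
    | some (.inr w) => .inr w
  invFun x := match x with
    | .inl i => Fin.cases none (fun i' => some (.inl i')) i
    | .inr w => some (.inr w)
  left_inv x := by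
    rcases x with _ | x | x <;> rfl
  right_inv x := by
    rcases x with i | x
    · refine Fin.cases ?_ (fun i => ?_) i <;> rfl
    · rfl
  map_rel_iff' := by
    intro x y
    rcases x with _ | x | x <;> rcases y with _ | y | y
    · exact ⟨fun h => h rfl, fun h => h.elim⟩
    · exact ⟨fun _ => trivial, fun _ => (Fin.succ_ne_zero y).symm⟩
    · exact Iff.rfl
    · exact ⟨fun _ => trivial, fun _ => Fin.succ_ne_zero x⟩
    · exact ⟨fun h h' => h (congrArg Fin.succ h'), fun h h' => h (Fin.succ_injective _ h')⟩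
    · exact Iff.rfl
    · exact Iff.rfl
    · exact Iff.rfl
    · exact Iff.rfl

theorem cone_low {u Δ ω : ℕ} {W : Type} [Fintype W] {H : SimpleGraph W} (h : LowS u Δ ω H) :
    LowS (u + 1) Δ (ω + 1) (cone H) := by
  obtain ⟨c, hc, hp⟩ := h
  refine ⟨c / (2 * (Δ + 1)) ^ 4, by positivity, ?_⟩
  have hlim : Tendsto (fun p : ℕ => p / (Δ + 1)) atTop atTop :=
    Nat.tendsto_div_const_atTop (Nat.succ_ne_zero Δ)
  filter_upwards [hlim.eventually hp, hlim.eventually_ge_atTop 1] with p h1 h2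
  obtain ⟨V, iV, G, hG, hk, hl⟩ := h1
  refine ⟨Option V, inferInstance, cone G, cone_adm hG, ?_, ?_⟩
  · calc cliqueCount (cone G) (u + 1) ≤ (Δ + 1) * cliqueCount G u := cone_count hG.1
      _ ≤ (Δ + 1) * (p / (Δ + 1)) := Nat.mul_le_mul_left _ hk
      _ ≤ p := Nat.mul_div_le p (Δ + 1)
  · obtain ⟨q, hq⟩ : ∃ q, q = p / (Δ + 1) := ⟨_, rfl⟩
    rw [← hq] at hl h2
    have h3 : p ≤ 2 * (Δ + 1) * q := by
      have h4 : p < (Δ + 1) * (q + 1) := by
        rw [hq]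
        exact Nat.lt_mul_div_succ p (Nat.succ_pos Δ)
      nlinarith
    have h3' : (p : ℝ) ≤ 2 * (Δ + 1) * q := by exact_mod_cast h3
    have hqp : q ≤ p := by rw [hq]; exact Nat.div_le_self _ _
    have hq0 : (0 : ℝ) < q := by exact_mod_cast h2
    have hE : Real.exp (-5 * √(Real.log p)) ≤ Real.exp (-5 * √(Real.log q)) := by
      apply Real.exp_le_exp.2
      have h5 : Real.log q ≤ Real.log p := Real.log_le_log hq0 (by exact_mod_cast hqp)
      have h6 := Real.sqrt_le_sqrt h5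
      linarith
    have h7 : (p : ℝ) ^ 4 / (2 * (Δ + 1)) ^ 4 ≤ (q : ℝ) ^ 4 := by
      rw [div_le_iff₀ (by positivity), ← mul_pow]
      refine pow_le_pow_left₀ (by positivity) ?_ 4
      linarith
    have h8 : (G.labelledCopyCount H : ℝ) ≤ ((cone G).labelledCopyCount (cone H) : ℝ) := by
      exact_mod_cast cone_label G H
    calc c / (2 * (Δ + 1)) ^ 4 * (p : ℝ) ^ 4 * Real.exp (-5 * √(Real.log p))
        = c * ((p : ℝ) ^ 4 / (2 * (Δ + 1)) ^ 4) * Real.exp (-5 * √(Real.log p)) := by ring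
      _ ≤ c * (q : ℝ) ^ 4 * Real.exp (-5 * √(Real.log q)) := by gcongr
      _ ≤ _ := hl
      _ ≤ _ := h8

theorem up_TU (Δ j : ℕ) : UpS (j + 2) Δ (TU j) := by
  induction j with
  | zero => exact (up_base Δ).iso isoZero
  | succ j ih => exact (cone_up ih).iso (isoSucc j)

theorem low_TU {Δ ω : ℕ} (hΔ : 1 ≤ Δ) (hω : 3 ≤ ω) (j : ℕ) : LowS (j + 2) Δ (ω + j) (TU j) := by
  induction j with
  | zero => exact (low_base hΔ hω).iso isoZero
  | succ j ih => exact (cone_low ih).iso (isoSucc j)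

section General

variable {u Δ ω : ℕ} {W : Type} [Fintype W] {H : SimpleGraph W}

theorem low_u [Nonempty W] (hu : 1 ≤ u) (huω : u ≤ ω) (h : LowS u Δ ω H) :
    ∀ᶠ p : ℕ in atTop, ∀ N : ℕ, (N : ℝ) ≤ (p : ℝ) ^ 4 * Real.exp (-6 * √(Real.log p)) →
      (N : ℕ∞) ≤ exU u Δ ω H p := by
  obtain ⟨A, hA⟩ : ∃ A : ℝ, A = (Nat.card (H ≃g H) : ℝ) := ⟨_, rfl⟩
  have hA0 : 0 < A := by
    rw [hA]
    exact_mod_cast card_aut_pos H
  obtain ⟨c, hc, hp⟩ := h
  have hlog : Tendsto (fun p : ℕ => Real.exp (√(Real.log p))) atTop atTop :=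
    Real.tendsto_exp_atTop.comp (Real.tendsto_sqrt_atTop.comp
      (Real.tendsto_log_atTop.comp tendsto_natCast_atTop_atTop))
  filter_upwards [hp, hlog.eventually_ge_atTop (A / c)] with p h1 h2 N hN
  obtain ⟨V, iV, G, hG, hk, hl⟩ := h1
  have hr : Real u Δ ω H p (G.copyCount H) := by
    have h3 := real_add hu ⟨V, iV, G, hG, rfl, le_rfl⟩
      (real_zero (H := H) (Δ := Δ) (u := u) (ω := ω) hu huω (p - cliqueCount G u))
    rwa [Nat.add_sub_cancel' hk, add_zero] at h3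
  refine le_trans ?_ (real_le_exU hr)
  rw [labelled_eq] at hl
  push_cast at hl
  rw [← hA] at hl
  have hexp : Real.exp (-6 * √(Real.log p)) =
      Real.exp (-5 * √(Real.log p)) * Real.exp (-√(Real.log p)) := by
    rw [← Real.exp_add]
    congr 1
    ring
  have he1 : A / c * Real.exp (-√(Real.log p)) ≤ 1 := by
    have h4 := mul_le_mul_of_nonneg_right h2 (Real.exp_pos (-√(Real.log p))).le
    rwa [← Real.exp_add, add_neg_cancel, Real.exp_zero] at h4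
  have he2 : A * Real.exp (-√(Real.log p)) ≤ c := by
    have : A / c * Real.exp (-√(Real.log p)) = A * Real.exp (-√(Real.log p)) / c := by ring
    rw [this, div_le_iff₀ hc, one_mul] at he1
    exact he1
  have h5 : (N : ℝ) * A ≤ (G.copyCount H : ℝ) * A := by
    calc (N : ℝ) * A ≤ ((p : ℝ) ^ 4 * Real.exp (-6 * √(Real.log p))) * A := by gcongr
      _ = (p : ℝ) ^ 4 * Real.exp (-5 * √(Real.log p)) * (A * Real.exp (-√(Real.log p))) := by
          rw [hexp]; ring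
      _ ≤ (p : ℝ) ^ 4 * Real.exp (-5 * √(Real.log p)) * c := by gcongr
      _ = c * (p : ℝ) ^ 4 * Real.exp (-5 * √(Real.log p)) := by ring
      _ ≤ _ := hl
  have h6 : (N : ℝ) ≤ (G.copyCount H : ℝ) := le_of_mul_le_mul_right h5 hA0
  have h7 : N ≤ G.copyCount H := by exact_mod_cast h6
  exact_mod_cast h7

theorem up_u (ω : ℕ) (h : UpS u Δ H) (ε : ℝ) (hε : 0 < ε) :
    ∀ᶠ p : ℕ in atTop, exU u Δ ω H p ≠ ⊤ ∧ ((exU u Δ ω H p).toNat : ℝ) ≤ ε * (p : ℝ) ^ 4 := by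
  obtain ⟨C, hC, hG⟩ := h (ε / 2) (by positivity)
  filter_upwards [eventually_ge_atTop 1, tendsto_natCast_atTop_atTop.eventually_ge_atTop (2 * C / ε)] with p hp hp2
  have hp1 : (1 : ℝ) ≤ p := by exact_mod_cast hp
  have hCp : C * (p : ℝ) ≤ ε / 2 * (p : ℝ) ^ 4 := by
    have h1 : 2 * C ≤ p * ε := by rwa [div_le_iff₀ hε] at hp2
    have h2 : (p : ℝ) * p ≤ (p : ℝ) ^ 4 := by
      have : (1 : ℝ) ≤ (p : ℝ) ^ 2 := one_le_pow₀ hp1
      nlinarith
    calc C * (p : ℝ) ≤ (p * ε / 2) * p := by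
          apply mul_le_mul_of_nonneg_right _ (by positivity)
          linarith
      _ = ε / 2 * (p * p) := by ring
      _ ≤ ε / 2 * (p : ℝ) ^ 4 := mul_le_mul_of_nonneg_left h2 (by positivity)
  have h1 : exU u Δ ω H p ≤ ((⌊ε * (p : ℝ) ^ 4⌋₊ : ℕ) : ℕ∞) := by
    refine exU_le ?_
    rintro N ⟨V, iV, G, hGA, hc, hN⟩
    have h2 := hG V G hGA.1
    rw [hc] at h2
    have h3 : (N : ℝ) ≤ G.labelledCopyCount H := by
      exact_mod_cast hN.trans copyCount_le_labelledCopyCount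
    refine Nat.le_floor (h3.trans (h2.trans ?_))
    linarith
  have h4 : exU u Δ ω H p ≠ ⊤ := ne_top_of_le_ne_top (ENat.natCast_ne_top _) h1
  refine ⟨h4, ?_⟩
  have h5 : (exU u Δ ω H p).toNat ≤ ⌊ε * (p : ℝ) ^ 4⌋₊ := by
    have h6 := ENat.toNat_le_toNat h1 (ENat.natCast_ne_top _)
    rwa [ENat.toNat_natCast] at h6
  have h7 : ((exU u Δ ω H p).toNat : ℝ) ≤ (⌊ε * (p : ℝ) ^ 4⌋₊ : ℝ) := by exact_mod_cast h5
  exact h7.trans (Nat.floor_le (by positivity))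

theorem no_power_u (hlow : ∀ᶠ p : ℕ in atTop, ∀ N : ℕ, (N : ℝ) ≤ (p : ℝ) ^ 4 * Real.exp (-6 * √(Real.log p)) →
      (N : ℕ∞) ≤ exU u Δ ω H p)
    (hup : ∀ ε : ℝ, 0 < ε → ∀ᶠ p : ℕ in atTop,
      exU u Δ ω H p ≠ ⊤ ∧ ((exU u Δ ω H p).toNat : ℝ) ≤ ε * (p : ℝ) ^ 4) :
    ¬ ∃ α c C : ℝ, 0 < c ∧ ∀ᶠ p : ℕ in atTop, c * (p : ℝ) ^ α ≤ ((exU u Δ ω H p).toNat : ℝ) ∧
      ((exU u Δ ω H p).toNat : ℝ) ≤ C * (p : ℝ) ^ α := by
  have low_value : ∀ᶠ p : ℕ in atTop, (p : ℝ) ^ 4 * Real.exp (-6 * √(Real.log p)) - 1 ≤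
      ((exU u Δ ω H p).toNat : ℝ) := by
    filter_upwards [hlow, hup 1 one_pos] with p h1 h2
    have h0 : 0 ≤ (p : ℝ) ^ 4 * Real.exp (-6 * √(Real.log p)) := by positivity
    have h3 := h1 ⌊(p : ℝ) ^ 4 * Real.exp (-6 * √(Real.log p))⌋₊ (Nat.floor_le h0)
    have h4 : ⌊(p : ℝ) ^ 4 * Real.exp (-6 * √(Real.log p))⌋₊ ≤ (exU u Δ ω H p).toNat := by
      have h6 := ENat.toNat_le_toNat h3 h2.1
      rwa [ENat.toNat_natCast] at h6
    have h5 : (⌊(p : ℝ) ^ 4 * Real.exp (-6 * √(Real.log p))⌋₊ : ℝ) ≤ ((exU u Δ ω H p).toNat : ℝ) := by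
      exact_mod_cast h4
    have h6 := Nat.lt_floor_add_one ((p : ℝ) ^ 4 * Real.exp (-6 * √(Real.log p)))
    linarith
  rintro ⟨α, c, C, hc, h⟩
  by_cases hα : 4 ≤ α
  · -- the upper bound is violated
    have h1 := (h.and ((hup (c / 2) (by positivity)).and (eventually_ge_atTop 1))).exists
    obtain ⟨p, ⟨h2, -⟩, ⟨-, h3⟩, hp⟩ := h1
    have hp' : (1 : ℝ) ≤ p := by exact_mod_cast hp
    have h4 : (p : ℝ) ^ (4 : ℕ) ≤ (p : ℝ) ^ α := by
      rw [← Real.rpow_natCast]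
      exact Real.rpow_le_rpow_of_exponent_le hp' (by exact_mod_cast hα)
    have h5 : (0 : ℝ) < (p : ℝ) ^ (4 : ℕ) := by positivity
    have h6 : c * (p : ℝ) ^ (4 : ℕ) ≤ c / 2 * (p : ℝ) ^ (4 : ℕ) :=
      (mul_le_mul_of_nonneg_left h4 hc.le).trans (h2.trans h3)
    nlinarith
  · push Not at hα
    -- the lower bound is violated
    set β : ℝ := max α 0 with hβ
    have hβ0 : 0 ≤ β := le_max_right _ _
    have hβ4 : β < 4 := max_lt hα (by norm_num)
    have hlim : Tendsto (fun p : ℕ => (p : ℝ) ^ (4 - β) * Real.exp (-6 * √(Real.log p))) atTop atTop := by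
      have e1 : Tendsto (fun x : ℝ => (4 - β) * x ^ 2 - 6 * x) atTop atTop := by
        have : (fun x : ℝ => (4 - β) * x ^ 2 - 6 * x) = fun x => x * ((4 - β) * x - 6) := by
          funext x; ring
        rw [this]
        exact tendsto_id.atTop_mul_atTop₀
          (tendsto_atTop_add_const_right _ _ (tendsto_id.const_mul_atTop (by linarith : (0 : ℝ) < 4 - β)))
      have e2 : Tendsto (fun p : ℕ => √(Real.log p)) atTop atTop :=
        Real.tendsto_sqrt_atTop.comp (Real.tendsto_log_atTop.comp tendsto_natCast_atTop_atTop)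
      have e3 := Real.tendsto_exp_atTop.comp (e1.comp e2)
      refine e3.congr' ?_
      filter_upwards [eventually_ge_atTop 1] with p hp
      have hp' : (0 : ℝ) < p := by exact_mod_cast hp
      have hlog : 0 ≤ Real.log p := Real.log_nonneg (by exact_mod_cast hp)
      simp only [Function.comp_apply]
      rw [Real.rpow_def_of_pos hp', ← Real.exp_add, Real.sq_sqrt hlog]
      congr 1
      ring
    obtain ⟨p, ⟨-, h2⟩, h3, h4, hp⟩ := (h.and (low_value.and ((hlim.eventually_ge_atTop (|C| + 2)).and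
      (eventually_ge_atTop 1)))).exists
    have hp' : (1 : ℝ) ≤ p := by exact_mod_cast hp
    have hp0 : (0 : ℝ) < p := by linarith
    have h5 : (1 : ℝ) ≤ (p : ℝ) ^ β := Real.one_le_rpow hp' hβ0
    have h6 : C * (p : ℝ) ^ α ≤ |C| * (p : ℝ) ^ β := by
      have a1 : (p : ℝ) ^ α ≤ (p : ℝ) ^ β := Real.rpow_le_rpow_of_exponent_le hp' (le_max_left _ _)
      calc C * (p : ℝ) ^ α ≤ |C| * (p : ℝ) ^ α := by
            gcongr
            exact le_abs_self C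
        _ ≤ |C| * (p : ℝ) ^ β := by gcongr
    have h7 : (p : ℝ) ^ (4 : ℕ) = (p : ℝ) ^ β * (p : ℝ) ^ (4 - β) := by
      rw [← Real.rpow_add hp0, ← Real.rpow_natCast]
      congr 1
      push_cast
      ring
    have h8 : (|C| + 2) * (p : ℝ) ^ β ≤ (p : ℝ) ^ (4 : ℕ) * Real.exp (-6 * √(Real.log p)) := by
      rw [h7, mul_assoc, mul_comm (|C| + 2)]
      gcongr
    nlinarith

end General

theorem all_u {u Δ ω : ℕ} (hu : 2 ≤ u) (hΔ : 1 ≤ Δ) (hω : u + 1 ≤ ω) :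
    (∀ᶠ p : ℕ in atTop, ∀ N : ℕ, (N : ℝ) ≤ (p : ℝ) ^ 4 * Real.exp (-6 * √(Real.log p)) →
      (N : ℕ∞) ≤ exU u Δ ω (TU (u - 2)) p) ∧
    (∀ ε : ℝ, 0 < ε → ∀ᶠ p : ℕ in atTop,
      exU u Δ ω (TU (u - 2)) p ≠ ⊤ ∧ ((exU u Δ ω (TU (u - 2)) p).toNat : ℝ) ≤ ε * (p : ℝ) ^ 4) ∧
    ¬ ∃ α c C : ℝ, 0 < c ∧ ∀ᶠ p : ℕ in atTop, c * (p : ℝ) ^ α ≤ ((exU u Δ ω (TU (u - 2)) p).toNat : ℝ) ∧
      ((exU u Δ ω (TU (u - 2)) p).toNat : ℝ) ≤ C * (p : ℝ) ^ α := by
  obtain ⟨j, rfl⟩ : ∃ j, u = j + 2 := ⟨u - 2, by omega⟩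
  obtain ⟨ω', rfl⟩ : ∃ ω', ω = ω' + j := ⟨ω - j, by omega⟩
  have h1 := low_u (by omega) (by omega) (low_TU hΔ (by omega : 3 ≤ ω') j)
  have h2 := up_u (ω' + j) (up_TU Δ j)
  exact ⟨h1, h2, no_power_u h1 h2⟩

end NPL
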