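import Pool.Agent.Lib.NPL.CompUp
import Pool.Agent.Lib.NPL.CompBaseUp
import Pool.Agent.Lib.NPL.CompBaseLow
import Pool.Agent.Lib.NPL.ConeFin

/-!
# Module CompFin: graphs with at least `u - 1` dominating vertices
-/

set_option autoImplicit false

namespace NPL

open SimpleGraph Finset Filter Pb736 Topology

theorem UpC.iso {u Δ c : ℕ} {W W' : Type} [Fintype W] [Fintype W'] {H : SimpleGraph W} {H' : SimpleGraph W'}
    (φ : H ≃g H') (h : UpC u Δ c H) : UpC u Δ c H' := by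
  obtain ⟨C, hC⟩ := h
  refine ⟨C, fun V _ G hfree => ?_⟩
  rw [← labelled_iso φ]
  exact hC V G hfree

theorem LowC.iso {u Δ ω c : ℕ} {W W' : Type} [Fintype W] [Fintype W'] {H : SimpleGraph W} {H' : SimpleGraph W'}
    (φ : H ≃g H') (h : LowC u Δ ω c H) : LowC u Δ ω c H' := by
  obtain ⟨a, ha, hp⟩ := h
  refine ⟨a, ha, hp.mono ?_⟩
  rintro p ⟨V, iV, G, hG, hk, hl⟩
  exact ⟨V, iV, G, hG, hk, by rwa [← labelled_iso φ]⟩

/-- `H` is `K_0 ∨ H` -/
def isoKZero {W : Type} (H : SimpleGraph W) : H ≃g KJ 0 H where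
  toEquiv := (Equiv.emptySum (Fin 0) W).symm
  map_rel_iff' := Iff.rfl

/-- `cone (K_j ∨ H) = K_(j+1) ∨ H` -/
def isoKSucc (j : ℕ) {W : Type} (H : SimpleGraph W) : cone (KJ j H) ≃g KJ (j + 1) H where
  toFun x := match x with
    | none => .inl 0
    | some (.inl i) => .inl i.succ
    | some (.inr w) => .inr w
  invFun x := match x with
    | .inl i => Fin.cases none (fun i' => some (.inl i')) i
    | .inr w => some (.inr w)
  left_inv x := by
    rcases x with _ | x | x <;> rfl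
  right_inv x := by
    rcases x with i | x
    · refine Fin.cases ?_ (fun i => ?_) i <;> rfl
    · rfl
  map_rel_iff' := by
    intro x y
    rcases x with _ | x | x <;> rcases y with _ | y | y
    · exact ⟨fun h => h rfl, fun h => h.elim⟩
    · exact ⟨fun _ => trivial, fun _ => (Fin.succ_ne_zero y).symm⟩
    · exact Iff.rfl
    · exact ⟨fun _ => trivial, fun _ => Fin.succ_ne_zero x⟩
    · exact ⟨fun h h' => h (congrArg Fin.succ h'), fun h h' => h (Fin.succ_injective _ h')⟩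
    · exact Iff.rfl
    · exact Iff.rfl
    · exact Iff.rfl
    · exact Iff.rfl

theorem TU_eq (j : ℕ) : TU j = KJ j T9 := by
  ext x y
  rcases x with x | x <;> rcases y with y | y <;> exact Iff.rfl

theorem cone_lowC {u Δ ω c : ℕ} {W : Type} [Fintype W] {H : SimpleGraph W} (h : LowC u Δ ω c H) :
    LowC (u + 1) Δ (ω + 1) c (cone H) := by
  obtain ⟨a, ha, hp⟩ := h
  refine ⟨a / (2 * (Δ + 1)) ^ c, by positivity, ?_⟩
  have hlim : Tendsto (fun p : ℕ => p / (Δ + 1)) atTop atTop :=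
    Nat.tendsto_div_const_atTop (Nat.succ_ne_zero Δ)
  filter_upwards [hlim.eventually hp, hlim.eventually_ge_atTop 1] with p h1 h2
  obtain ⟨V, iV, G, hG, hk, hl⟩ := h1
  refine ⟨Option V, inferInstance, cone G, cone_adm hG, ?_, ?_⟩
  · calc cliqueCount (cone G) (u + 1) ≤ (Δ + 1) * cliqueCount G u := cone_count hG.1
      _ ≤ (Δ + 1) * (p / (Δ + 1)) := Nat.mul_le_mul_left _ hk
      _ ≤ p := Nat.mul_div_le p (Δ + 1)
  · obtain ⟨q, hq⟩ : ∃ q, q = p / (Δ + 1) := ⟨_, rfl⟩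
    rw [← hq] at hl h2
    have h3 : p ≤ 2 * (Δ + 1) * q := by
      have h4 : p < (Δ + 1) * (q + 1) := by
        rw [hq]
        exact Nat.lt_mul_div_succ p (Nat.succ_pos Δ)
      nlinarith
    have h3' : (p : ℝ) ≤ 2 * (Δ + 1) * q := by exact_mod_cast h3
    have h7 : (p : ℝ) ^ c / (2 * (Δ + 1)) ^ c ≤ (q : ℝ) ^ c := by
      rw [div_le_iff₀ (by positivity), ← mul_pow]
      refine pow_le_pow_left₀ (by positivity) ?_ c
      linarith
    have h8 : (G.labelledCopyCount H : ℝ) ≤ ((cone G).labelledCopyCount (cone H) : ℝ) := by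
      exact_mod_cast cone_label G H
    calc a / (2 * (Δ + 1)) ^ c * (p : ℝ) ^ c
        = a * ((p : ℝ) ^ c / (2 * (Δ + 1)) ^ c) := by ring
      _ ≤ a * (q : ℝ) ^ c := by gcongr
      _ ≤ _ := hl
      _ ≤ _ := h8

theorem comp_pos {W : Type} [Fintype W] [Nonempty W] (H : SimpleGraph W) : 1 ≤ Nat.card H.ConnectedComponent := by
  have : Finite H.ConnectedComponent := Quot.finite _
  have : Nonempty H.ConnectedComponent := (inferInstance : Nonempty W).map H.connectedComponentMk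
  exact Nat.card_pos

theorem up_KJ (Δ j : ℕ) {W : Type} [Fintype W] [Nonempty W] (H : SimpleGraph W) :
    UpC (j + 1) Δ (Nat.card H.ConnectedComponent) (KJ j H) := by
  induction j with
  | zero => exact (base_upC Δ H).iso (isoKZero H)
  | succ j ih => exact (cone_upC (comp_pos H) ih).iso (isoKSucc j H)

theorem low_KJ {Δ ω : ℕ} {W : Type} [Fintype W] [Nonempty W] {H : SimpleGraph W} (h : Adm 1 Δ ω H) (j : ℕ) :
    LowC (j + 1) Δ (ω + j) (Nat.card H.ConnectedComponent) (KJ j H) := by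
  induction j with
  | zero => exact (base_lowC h).iso (isoKZero H)
  | succ j ih => exact (cone_lowC ih).iso (isoKSucc j H)

theorem cone_adm_rev {u Δ ω : ℕ} {V : Type} {G : SimpleGraph V} (h : Adm (u + 1) Δ (ω + 1) (cone G)) :
    Adm u Δ ω G := by
  classical
  have key : ∀ (n : ℕ) (T : Finset V), G.IsNClique n T → (cone G).IsNClique (n + 1) (insertNone T) := by
    intro n T hT
    refine ⟨?_, by rw [card_insertNone, hT.card_eq]⟩
    intro a ha b hb hab
    cases a with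
    | none =>
      cases b with
      | none => exact absurd rfl hab
      | some b => trivial
    | some a =>
      cases b with
      | none => trivial
      | some b =>
        exact hT.isClique (some_mem_insertNone.1 ha) (some_mem_insertNone.1 hb) (fun h => hab (congrArg some h))
  obtain ⟨h1, h2⟩ := h
  rw [free_split_iff] at h1
  refine ⟨?_, fun T hT => h2 _ (key _ T hT)⟩
  rw [free_split_iff]
  intro T hT C hC
  have h3 := h1 (insertNone T) (key u T hT) (C.map Function.Embedding.some) (by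
    intro x hx w hw
    obtain ⟨y, hy, rfl⟩ := mem_map.1 hx
    cases w with
    | none => trivial
    | some w => exact hC y hy w (some_mem_insertNone.1 hw))
  rwa [card_map] at h3

theorem adm_KJ {Δ ω : ℕ} {W : Type} {H : SimpleGraph W} (j : ℕ) (h : Adm (j + 1) Δ (ω + j) (KJ j H)) :
    Adm 1 Δ ω H := by
  induction j with
  | zero => exact RealBAux.adm_iso (isoKZero H).symm h
  | succ j ih => exact ih (cone_adm_rev (RealBAux.adm_iso (isoKSucc j H).symm h))

section General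

variable {u Δ ω c : ℕ} {W : Type} [Fintype W] {H : SimpleGraph W}

theorem low_uC [Nonempty W] (hu : 1 ≤ u) (huω : u ≤ ω) (h : LowC u Δ ω c H) :
    ∃ a : ℝ, 0 < a ∧ ∀ᶠ p : ℕ in atTop, ∃ N : ℕ, a * (p : ℝ) ^ c ≤ N ∧ (N : ℕ∞) ≤ exU u Δ ω H p := by
  obtain ⟨A, hA⟩ : ∃ A : ℝ, A = (Nat.card (H ≃g H) : ℝ) := ⟨_, rfl⟩
  have hA0 : 0 < A := by
    rw [hA]
    exact_mod_cast card_aut_pos H
  obtain ⟨a, ha, hp⟩ := h
  refine ⟨a / A, by positivity, hp.mono ?_⟩
  rintro p ⟨V, iV, G, hG, hk, hl⟩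
  have hr : Real u Δ ω H p (G.copyCount H) := by
    have h3 := real_add hu ⟨V, iV, G, hG, rfl, le_rfl⟩
      (real_zero (H := H) (Δ := Δ) (u := u) (ω := ω) hu huω (p - cliqueCount G u))
    rwa [Nat.add_sub_cancel' hk, add_zero] at h3
  refine ⟨G.copyCount H, ?_, real_le_exU hr⟩
  rw [labelled_eq] at hl
  push_cast at hl
  rw [← hA] at hl
  calc a / A * (p : ℝ) ^ c = (a * (p : ℝ) ^ c) / A := by ring
    _ ≤ _ := by rw [div_le_iff₀ hA0]; exact hl

theorem up_uC (ω : ℕ) (h : UpC u Δ c H) : ∃ C : ℕ, ∀ p : ℕ, exU u Δ ω H p ≤ ((C * p ^ c : ℕ) : ℕ∞) := by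
  obtain ⟨C, hC⟩ := h
  refine ⟨C, fun p => exU_le ?_⟩
  rintro N ⟨V, iV, G, hGA, hc, hN⟩
  have h2 := hC V G hGA.1
  rw [hc] at h2
  exact (hN.trans copyCount_le_labelledCopyCount).trans h2

end General

theorem power_law {u Δ ω : ℕ} (hu : 1 ≤ u) (huω : u ≤ ω) {W : Type} [Fintype W] [Nonempty W] (H : SimpleGraph W)
    (h : Adm u Δ ω (KJ (u - 1) H)) :
    ∃ a b : ℝ, 0 < a ∧ ∀ᶠ p : ℕ in atTop, exU u Δ ω (KJ (u - 1) H) p ≠ ⊤ ∧
      a * (p : ℝ) ^ Nat.card H.ConnectedComponent ≤ ((exU u Δ ω (KJ (u - 1) H) p).toNat : ℝ) ∧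
      ((exU u Δ ω (KJ (u - 1) H) p).toNat : ℝ) ≤ b * (p : ℝ) ^ Nat.card H.ConnectedComponent := by
  obtain ⟨j, rfl⟩ : ∃ j, u = j + 1 := ⟨u - 1, by omega⟩
  obtain ⟨ω', rfl⟩ : ∃ ω', ω = ω' + j := ⟨ω - j, by omega⟩
  have e : j + 1 - 1 = j := rfl
  rw [e] at h ⊢
  obtain ⟨a, ha, h1⟩ := low_uC (by omega) (by omega) (low_KJ (adm_KJ j h) j)
  obtain ⟨C, h2⟩ := up_uC (ω' + j) (up_KJ Δ j H)
  refine ⟨a, C, ha, h1.mono ?_⟩
  rintro p ⟨N, hN1, hN2⟩
  have h3 := h2 p
  have h4 : exU (j + 1) Δ (ω' + j) (KJ j H) p ≠ ⊤ := ne_top_of_le_ne_top (ENat.natCast_ne_top _) h3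
  refine ⟨h4, ?_, ?_⟩
  · have h5 := ENat.toNat_le_toNat hN2 h4
    rw [ENat.toNat_natCast] at h5
    exact hN1.trans (by exact_mod_cast h5)
  · have h5 := ENat.toNat_le_toNat h3 (ENat.natCast_ne_top _)
    rw [ENat.toNat_natCast] at h5
    exact_mod_cast h5

end NPL
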