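import Pool.Agent.Lib.NPL.Cone
import Pool.Agent.Lib.Pb736.Turan

/-!
# Module ConeUp: the upper bound passes to the cone

PROOF.  Let `G` be `split (u+1) (Δ+1)`-free.  `TuranAux.label_card`: labelledCopyCount = Nat.card (Copy ..).  A copy of `cone H` in `G` is
given by the image `v` of `none` and a copy of `H` in `G.induce (G.neighborSet v)`; so
`labelled (cone H, G) ≤ ∑ v, labelled (H, G.induce (G.neighborSet v))` (injective map into a sigma type).  `G.induce (G.neighborSet v)` is
`split u (Δ+1)`-free (`free_split_iff`: a `u`-clique `T` in it with common neighbours `C` gives the `(u+1)`-clique `T ∪ {v}` of `G` with the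
same common neighbours).  `∑ v, k_u (G.induce (G.neighborSet v)) ≤ (u+1) k_(u+1)(G)` (inject `(v, T)` into the pairs `(Q, v)`, `Q = T ∪ {v}`,
`v ∈ Q`).  Let `a_v = k_u(...)`, `S = ∑ a_v ≤ (u+1) k`.  `∑ (ε' a_v^4 + C a_v) ≤ ε' S^4 + C S ≤ ε' (u+1)^4 k^4 + C (u+1) k`; use the hypothesis
with `ε' = ε / (u+1)^4`.
-/

set_option autoImplicit false

namespace NPL

open SimpleGraph Finset Pb736

namespace ConeUpAux

/-- the part of a copy of the cone over `H` in the link of the image of `none` -/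
def restr {V W : Type} {G : SimpleGraph V} {H : SimpleGraph W} (f : Copy (cone H) G) :
    Copy H (G.induce (G.neighborSet (f none))) where
  toHom := ⟨fun w => ⟨f (some w), f.toHom.map_adj (show (cone H).Adj none (some w) from trivial)⟩, by
    intro a b hab
    exact f.toHom.map_adj (show (cone H).Adj (some a) (some b) from hab)⟩
  injective' := by
    intro a b hab
    exact Option.some_injective _ (f.injective (congrArg Subtype.val hab))

theorem restr_apply {V W : Type} {G : SimpleGraph V} {H : SimpleGraph W} (f : Copy (cone H) G) (w : W) :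
    ((restr f w : G.neighborSet (f none)) : V) = f (some w) := rfl

open Classical in
theorem labelled_le {V W : Type} [Fintype V] [Fintype W] (G : SimpleGraph V) (H : SimpleGraph W) :
    G.labelledCopyCount (cone H) ≤ ∑ v : V, (G.induce (G.neighborSet v)).labelledCopyCount H := by
  simp only [TuranAux.label_card]
  have : ∀ v : V, Finite (Copy H (G.induce (G.neighborSet v))) := fun v => TuranAux.finite_copy _ H
  rw [← Nat.card_sigma]
  refine Nat.card_le_card_of_injective
    (fun f : Copy (cone H) G => (⟨f none, restr f⟩ : Σ v : V, Copy H (G.induce (G.neighborSet v)))) ?_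
  intro f g h
  have h1 := congrArg (fun x : Σ v : V, Copy H (G.induce (G.neighborSet v)) =>
    (x.1, fun w : W => ((x.2 w : G.neighborSet x.1) : V))) h
  have h2 : f none = g none := congrArg Prod.fst h1
  have h3 : ∀ w : W, f (some w) = g (some w) := fun w => congrFun (congrArg Prod.snd h1) w
  ext x
  cases x with
  | none => exact h2
  | some w => exact h3 w

theorem clique_up {V : Type} {G : SimpleGraph V} [DecidableEq V] {u : ℕ} {v : V} {T : Finset (G.neighborSet v)}
    (hT : (G.induce (G.neighborSet v)).IsNClique u T) :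
    G.IsNClique (u + 1) (insert v (T.map (Function.Embedding.subtype _))) := by
  have hmem : ∀ x ∈ T.map (Function.Embedding.subtype (· ∈ G.neighborSet v)), G.Adj v x := by
    intro x hx
    obtain ⟨y, -, rfl⟩ := mem_map.1 hx
    exact y.2
  have hc : G.IsNClique u (T.map (Function.Embedding.subtype (· ∈ G.neighborSet v))) := by
    refine ⟨?_, by rw [card_map, hT.card_eq]⟩
    intro a ha b hb hab
    rw [mem_coe, mem_map] at ha hb
    obtain ⟨a', ha', rfl⟩ := ha
    obtain ⟨b', hb', rfl⟩ := hb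
    exact hT.isClique ha' hb' (fun h => hab (by rw [h]))
  exact hc.insert hmem

theorem notMem {V : Type} {G : SimpleGraph V} {v : V} (T : Finset (G.neighborSet v)) :
    v ∉ T.map (Function.Embedding.subtype (· ∈ G.neighborSet v)) := by
  intro h
  obtain ⟨y, -, hy⟩ := mem_map.1 h
  have h1 : G.Adj v y := y.2
  exact h1.ne hy.symm

theorem clique_inst {V : Type} (f₁ f₂ : Fintype V) (G : SimpleGraph V) (u : ℕ) (d₁ d₂ : DecidableEq V)
    (r₁ r₂ : DecidableRel G.Adj) :
    #(@cliqueFinset V G f₁ d₁ r₁ u) = #(@cliqueFinset V G f₂ d₂ r₂ u) := by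
  have hf : f₁ = f₂ := Subsingleton.elim _ _
  have hd : d₁ = d₂ := Subsingleton.elim _ _
  have hr : r₁ = r₂ := Subsingleton.elim _ _
  subst hf hd hr
  rfl

open Classical in
theorem clique_sum {V : Type} [Fintype V] (G : SimpleGraph V) (u : ℕ) :
    ∑ v : V, cliqueCount (G.induce (G.neighborSet v)) u ≤ (u + 1) * cliqueCount G (u + 1) := by
  have h1 : ∑ v : V, cliqueCount (G.induce (G.neighborSet v)) u =
      #(univ.sigma fun v : V => (G.induce (G.neighborSet v)).cliqueFinset u) := by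
    rw [card_sigma]
    refine sum_congr rfl fun v _ => ?_
    unfold cliqueCount
    exact clique_inst _ _ _ _ _ _ _ _
  have h2 : (u + 1) * cliqueCount G (u + 1) = #((G.cliqueFinset (u + 1)).sigma fun Q => Q) := by
    rw [card_sigma, sum_congr rfl (g := fun _ => u + 1) (fun Q hQ => ((mem_cliqueFinset_iff).1 hQ).card_eq),
      sum_const, smul_eq_mul, mul_comm]
    unfold cliqueCount
    exact congrArg (fun n => n * (u + 1)) (clique_inst _ _ _ _ _ _ _ _)
  rw [h1, h2]
  refine card_le_card_of_injOn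
    (fun x => (⟨insert x.1 (x.2.map (Function.Embedding.subtype _)), x.1⟩ : Σ _ : Finset V, V)) ?_ ?_
  · rintro ⟨v, T⟩ hx
    simp only [coe_sigma, Set.mem_sigma_iff, mem_coe, mem_cliqueFinset_iff, mem_univ, true_and] at hx ⊢
    exact ⟨clique_up hx, mem_insert_self _ _⟩
  · rintro ⟨v, T⟩ - ⟨v', T'⟩ - h
    have hv : v = v' := congrArg Sigma.snd h
    subst hv
    have hQ : insert v (T.map (Function.Embedding.subtype _)) = insert v (T'.map (Function.Embedding.subtype _)) :=
      congrArg Sigma.fst h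
    have h3 := congrArg (fun Q : Finset V => Q.erase v) hQ
    simp only [erase_insert (notMem T), erase_insert (notMem T')] at h3
    rw [map_inj.1 h3]

theorem free_link {V : Type} (G : SimpleGraph V) (u Δ : ℕ) (hG : (split (u + 1) (Δ + 1)).Free G) (v : V) :
    (split u (Δ + 1)).Free (G.induce (G.neighborSet v)) := by
  classical
  rw [free_split_iff]
  intro T hT C hC
  have h1 := (free_split_iff G (u + 1) Δ).1 hG _ (clique_up hT)
    (C.map (Function.Embedding.subtype (· ∈ G.neighborSet v))) ?_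
  · rwa [card_map] at h1
  · intro x hx w hw
    obtain ⟨x', hx', rfl⟩ := mem_map.1 hx
    rcases mem_insert.1 hw with rfl | hw
    · exact SimpleGraph.Adj.symm x'.2
    · obtain ⟨w', hw', rfl⟩ := mem_map.1 hw
      exact hC x' hx' w' hw'

theorem sum_pow_four {ι : Type} (s : Finset ι) (a : ι → ℝ) (ha : ∀ i ∈ s, 0 ≤ a i) :
    ∑ i ∈ s, a i ^ 4 ≤ (∑ i ∈ s, a i) ^ 4 := by
  have hS : 0 ≤ ∑ i ∈ s, a i := sum_nonneg ha
  have h1 : ∀ i ∈ s, a i ^ 4 ≤ a i * (∑ i ∈ s, a i) ^ 3 := by
    intro i hi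
    have h2 : a i ≤ ∑ i ∈ s, a i := single_le_sum ha hi
    have h3 : a i ^ 3 ≤ (∑ i ∈ s, a i) ^ 3 := pow_le_pow_left₀ (ha i hi) h2 3
    calc a i ^ 4 = a i * a i ^ 3 := by ring
      _ ≤ a i * (∑ i ∈ s, a i) ^ 3 := mul_le_mul_of_nonneg_left h3 (ha i hi)
  calc ∑ i ∈ s, a i ^ 4 ≤ ∑ i ∈ s, a i * (∑ i ∈ s, a i) ^ 3 := sum_le_sum h1
    _ = (∑ i ∈ s, a i) ^ 4 := by rw [← sum_mul]; ring

end ConeUpAux

theorem cone_up {u Δ : ℕ} {W : Type} [Fintype W] {H : SimpleGraph W} (h : UpS u Δ H) : UpS (u + 1) Δ (cone H) := by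
  classical
  intro ε hε
  have hu : (0 : ℝ) < ((u : ℝ) + 1) ^ 4 := by positivity
  obtain ⟨C, hC0, hC⟩ := h (ε / ((u : ℝ) + 1) ^ 4) (by positivity)
  refine ⟨C * ((u : ℝ) + 1), by positivity, ?_⟩
  intro V _ G hG
  have h1 : (G.labelledCopyCount (cone H) : ℝ) ≤
      ∑ v : V, ((G.induce (G.neighborSet v)).labelledCopyCount H : ℝ) := by
    have h2 := ConeUpAux.labelled_le G H
    have h3 : ((G.labelledCopyCount (cone H) : ℕ) : ℝ) ≤
        ((∑ v : V, (G.induce (G.neighborSet v)).labelledCopyCount H : ℕ) : ℝ) := by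
      refine Nat.cast_le.2 (le_trans (le_of_eq ?_) (h2.trans (le_of_eq ?_)))
      · congr!
      · congr!
    rw [Nat.cast_sum] at h3
    exact h3
  have h4 : ∑ v : V, ((G.induce (G.neighborSet v)).labelledCopyCount H : ℝ) ≤
      ∑ v : V, (ε / ((u : ℝ) + 1) ^ 4 * (cliqueCount (G.induce (G.neighborSet v)) u : ℝ) ^ 4 +
        C * (cliqueCount (G.induce (G.neighborSet v)) u : ℝ)) :=
    sum_le_sum fun v _ => hC _ _ (ConeUpAux.free_link G u Δ hG v)
  have h5 : (∑ v : V, (cliqueCount (G.induce (G.neighborSet v)) u : ℝ)) ≤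
      ((u : ℝ) + 1) * (cliqueCount G (u + 1) : ℝ) := by
    have h6 := ConeUpAux.clique_sum G u
    have h7 : ((∑ v : V, cliqueCount (G.induce (G.neighborSet v)) u : ℕ) : ℝ) ≤
        (((u + 1) * cliqueCount G (u + 1) : ℕ) : ℝ) := by
      refine Nat.cast_le.2 (le_trans (le_of_eq ?_) h6)
      congr!
    push_cast at h7
    exact h7
  have hS0 : 0 ≤ ∑ v : V, (cliqueCount (G.induce (G.neighborSet v)) u : ℝ) :=
    sum_nonneg fun v _ => Nat.cast_nonneg _
  have h8 := ConeUpAux.sum_pow_four univ (fun v : V => (cliqueCount (G.induce (G.neighborSet v)) u : ℝ))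
    (fun v _ => Nat.cast_nonneg _)
  have h9 : (∑ v : V, (cliqueCount (G.induce (G.neighborSet v)) u : ℝ)) ^ 4 ≤
      (((u : ℝ) + 1) * (cliqueCount G (u + 1) : ℝ)) ^ 4 := pow_le_pow_left₀ hS0 h5 4
  calc (G.labelledCopyCount (cone H) : ℝ)
      ≤ ∑ v : V, (ε / ((u : ℝ) + 1) ^ 4 * (cliqueCount (G.induce (G.neighborSet v)) u : ℝ) ^ 4 +
        C * (cliqueCount (G.induce (G.neighborSet v)) u : ℝ)) := h1.trans h4
    _ = ε / ((u : ℝ) + 1) ^ 4 * ∑ v : V, (cliqueCount (G.induce (G.neighborSet v)) u : ℝ) ^ 4 +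
        C * ∑ v : V, (cliqueCount (G.induce (G.neighborSet v)) u : ℝ) := by
      rw [sum_add_distrib, mul_sum, mul_sum]
    _ ≤ ε / ((u : ℝ) + 1) ^ 4 * (((u : ℝ) + 1) * (cliqueCount G (u + 1) : ℝ)) ^ 4 +
        C * (((u : ℝ) + 1) * (cliqueCount G (u + 1) : ℝ)) :=
      add_le_add (mul_le_mul_of_nonneg_left (h8.trans h9) (by positivity)) (mul_le_mul_of_nonneg_left h5 hC0)
    _ = ε * (cliqueCount G (u + 1) : ℝ) ^ 4 + C * ((u : ℝ) + 1) * (cliqueCount G (u + 1) : ℝ) := by
      field_simp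

end NPL
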