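import Pool.Agent.Lib.NPL.CompDefs
import Pool.Agent.Lib.NPL.ConeUp

/-!
# Module CompUp: the cone step for the bound `C k_u^c`

PROOF.  As in `cone_up` (use `ConeUpAux.labelled_le`, `free_link`, `clique_sum`): `∑ v, C a_v^c ≤ C (∑ a_v)^c ≤ C ((u+1) k)^c`, `c ≥ 1`
(`a_v^c = a_v a_v^(c-1) ≤ a_v S^(c-1)`).
-/

set_option autoImplicit false

namespace NPL

open SimpleGraph Finset Pb736

theorem sum_pow_le_nat {ι : Type} (s : Finset ι) (a : ι → ℕ) (c : ℕ) (hc : 1 ≤ c) :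
    ∑ i ∈ s, a i ^ c ≤ (∑ i ∈ s, a i) ^ c := by
  obtain ⟨d, rfl⟩ : ∃ d, c = d + 1 := ⟨c - 1, by omega⟩
  have h1 : ∀ i ∈ s, a i ^ (d + 1) ≤ a i * (∑ i ∈ s, a i) ^ d := by
    intro i hi
    have h2 : a i ≤ ∑ i ∈ s, a i := single_le_sum (fun _ _ => Nat.zero_le _) hi
    rw [pow_succ, mul_comm]
    exact Nat.mul_le_mul_left _ (Nat.pow_le_pow_left h2 d)
  refine (sum_le_sum h1).trans (le_of_eq ?_)
  rw [← sum_mul, pow_succ, mul_comm]

theorem cone_upC {u Δ c : ℕ} (hc : 1 ≤ c) {W : Type} [Fintype W] {H : SimpleGraph W} (h : UpC u Δ c H) :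
    UpC (u + 1) Δ c (cone H) := by
  classical
  obtain ⟨C, hC⟩ := h
  refine ⟨C * (u + 1) ^ c, ?_⟩
  intro V _ G hG
  have h1 : G.labelledCopyCount (cone H) ≤
      ∑ v : V, (G.induce (G.neighborSet v)).labelledCopyCount H := by
    have h2 := ConeUpAux.labelled_le G H
    refine le_trans (le_of_eq ?_) (h2.trans (le_of_eq ?_))
    · congr!
    · congr!
  have h4 : ∑ v : V, (G.induce (G.neighborSet v)).labelledCopyCount H ≤
      ∑ v : V, C * cliqueCount (G.induce (G.neighborSet v)) u ^ c :=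
    sum_le_sum fun v _ => hC _ _ (ConeUpAux.free_link G u Δ hG v)
  have h5 : ∑ v : V, cliqueCount (G.induce (G.neighborSet v)) u ≤ (u + 1) * cliqueCount G (u + 1) := by
    have h6 := ConeUpAux.clique_sum G u
    refine le_trans (le_of_eq ?_) h6
    congr!
  have h8 := sum_pow_le_nat univ (fun v : V => cliqueCount (G.induce (G.neighborSet v)) u) c hc
  calc G.labelledCopyCount (cone H)
      ≤ ∑ v : V, C * cliqueCount (G.induce (G.neighborSet v)) u ^ c := h1.trans h4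
    _ = C * ∑ v : V, cliqueCount (G.induce (G.neighborSet v)) u ^ c := by rw [mul_sum]
    _ ≤ C * ((u + 1) * cliqueCount G (u + 1)) ^ c :=
        Nat.mul_le_mul_left _ (h8.trans (Nat.pow_le_pow_left h5 c))
    _ = C * (u + 1) ^ c * cliqueCount G (u + 1) ^ c := by
        rw [mul_pow, mul_assoc]

end NPL
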