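import Pool.Agent.Lib.NPL.Defs

/-!
# No power law for all `u ≥ 2`: cones
-/

set_option autoImplicit false

namespace NPL

open SimpleGraph Finset Pb736

/-- the cone over `H`: a new vertex `none` which is joined to all vertices of `H` -/
def cone {W : Type} (H : SimpleGraph W) : SimpleGraph (Option W) where
  Adj x y := match x, y with
    | none, none => False
    | none, some _ => True
    | some _, none => True
    | some a, some b => H.Adj a b
  symm := ⟨fun x y h => by
    cases x <;> cases y <;> first | exact SimpleGraph.Adj.symm h | exact h⟩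
  loopless := ⟨fun x h => by
    cases x
    · exact h
    · exact SimpleGraph.Adj.ne h rfl⟩

/-- `K_j ∨ T9`: a clique on `j` vertices, the graph `T9`, and all edges between them -/
def TU (j : ℕ) : SimpleGraph (Fin j ⊕ (Fin 3 × Fin 3)) where
  Adj x y := match x, y with
    | .inl a, .inl b => a ≠ b
    | .inl _, .inr _ => True
    | .inr _, .inl _ => True
    | .inr a, .inr b => T9.Adj a b
  symm := ⟨fun x y h => by
    cases x <;> cases y <;> first | exact SimpleGraph.Adj.symm h | exact Ne.symm h | exact h⟩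
  loopless := ⟨fun x h => by
    cases x
    · exact h rfl
    · exact SimpleGraph.Adj.ne h rfl⟩

/-- the upper bound: `labelled copies ≤ ε k_u^4 + C k_u` -/
def UpS (u Δ : ℕ) {W : Type} [Fintype W] (H : SimpleGraph W) : Prop :=
  ∀ ε : ℝ, 0 < ε → ∃ C : ℝ, 0 ≤ C ∧ ∀ (V : Type) [Fintype V] (G : SimpleGraph V), (split u (Δ + 1)).Free G →
    (G.labelledCopyCount H : ℝ) ≤ ε * (cliqueCount G u : ℝ) ^ 4 + C * (cliqueCount G u : ℝ)

/-- the lower bound -/
def LowS (u Δ ω : ℕ) {W : Type} [Fintype W] (H : SimpleGraph W) : Prop :=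
  ∃ c : ℝ, 0 < c ∧ ∀ᶠ p : ℕ in Filter.atTop, ∃ (V : Type) (_ : Fintype V) (G : SimpleGraph V), Adm u Δ ω G ∧
    cliqueCount G u ≤ p ∧ c * (p : ℝ) ^ 4 * Real.exp (-5 * √(Real.log p)) ≤ (G.labelledCopyCount H : ℝ)

end NPL
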