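import Pool.Agent.Lib.Pb736.Defs

/-!
# No power law: the graph `T9`
-/

set_option autoImplicit false

namespace NPL

open SimpleGraph Finset

/-- The graph on 9 vertices `x_i = (i, 0)`, `a_i = (i, 1)`, `b_i = (i, 2)` (`i` modulo 3): a triangle `x_0 x_1 x_2` and the three
paths `x_i a_i b_i x_{i+1}`. -/
def T9 : SimpleGraph (Fin 3 × Fin 3) where
  Adj v w := (v.2 = 0 ∧ w.2 = 0 ∧ v.1 ≠ w.1) ∨
    (v.1 = w.1 ∧ ((v.2 = 0 ∧ w.2 = 1) ∨ (v.2 = 1 ∧ w.2 = 0) ∨ (v.2 = 1 ∧ w.2 = 2) ∨ (v.2 = 2 ∧ w.2 = 1))) ∨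
    (v.2 = 2 ∧ w.2 = 0 ∧ w.1 = v.1 + 1) ∨ (v.2 = 0 ∧ w.2 = 2 ∧ v.1 = w.1 + 1)
  symm := ⟨by decide⟩
  loopless := ⟨by decide⟩

instance : DecidableRel T9.Adj := fun v w => by unfold T9; infer_instance

end NPL
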