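import Pool.Agent.Lib.NPL.Defs
import Pool.Agent.Lib.Pb736.Turan
import Pool.Agent.Lib.Pb736.Fin

/-!
# Module Low: the lower construction

PROOF.  `ruzsaSzemerediNumber_spec` for `Fin m`: a graph `R` on `Fin m` with `t = ruzsaSzemerediNumberNat m` triangles, locally linear
(every edge lies in exactly one triangle).  `G` has the vertex set `(Fin 3 × Fin 3) × Fin m`, `(v, j) ~ (w, j')` iff `T9.Adj v w` and
(if `v.2 = 0` and `w.2 = 0` then `R.Adj j j'`).  (1) `G ≤ blow T9 m` has at most `12 m^2` edges (`cliqueCount`; `T9` has 12 edges).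
(2) the triangles of `T9` are `x_0 x_1 x_2` only, so a triangle of `G` is `(x_0, j0), (x_1, j1), (x_2, j2)` with `j0 j1 j2` a triangle of
`R`; by local linearity every edge of `G` lies in at most one triangle, so every 2-clique has at most one common neighbour
(`free_split_iff`, `Δ ≥ 1`), and `G` is `K_4`-free (`T9` is), `ω ≥ 3`: `Adm 2 Δ ω G`.  (3) for every triangle of `R` choose an ordering
`(j0, j1, j2)`; with any `α β : Fin 3 → Fin m` the map `x_i ↦ (x_i, j_i)`, `a_i ↦ (a_i, α i)`, `b_i ↦ (b_i, β i)` is a copy of `T9`; these are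
different, so `labelledCopyCount ≥ t m^6`; `labelled_eq` gives `labelledCopyCount = copyCount * Nat.card (T9 ≃g T9)`.
-/

set_option autoImplicit false

namespace NPL

open SimpleGraph Finset Pb736

namespace LowAux

theorem t9_tri : ∀ p q r : Fin 3 × Fin 3, T9.Adj p q → T9.Adj r p → T9.Adj r q →
    p.2 = 0 ∧ q.2 = 0 ∧ r.2 = 0 ∧ p.1 ≠ q.1 ∧ r.1 ≠ p.1 ∧ r.1 ≠ q.1 := by
  decide +kernel

theorem t9_zero : ∀ p q : Fin 3 × Fin 3, T9.Adj p q → p.2 = 0 → q.2 = 0 → p.1 ≠ q.1 := by
  decide +kernel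

theorem third : ∀ a b c d : Fin 3, a ≠ b → c ≠ a → c ≠ b → d ≠ a → d ≠ b → c = d := by
  decide +kernel

/-- the edges of `T9` -/
def E9 : Finset (Finset (Fin 3 × Fin 3)) :=
  (univ.filter (fun p : (Fin 3 × Fin 3) × (Fin 3 × Fin 3) => T9.Adj p.1 p.2)).image
    (fun p => {p.1, p.2})

theorem card_E9 : #E9 ≤ 12 := by
  decide +kernel

theorem count_T9 : cliqueCount T9 2 ≤ 12 := by
  classical
  rw [BlowAux.cliqueCount_eq T9 2 (univ.filter fun T => T9.IsNClique 2 T) (by simp)]
  refine (card_le_card ?_).trans card_E9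
  intro T hT
  rw [mem_filter] at hT
  replace hT := hT.2
  obtain ⟨a, b, hab, rfl⟩ := card_eq_two.1 hT.card_eq
  have h1 : T9.Adj a b := hT.isClique (by simp) (by simp) hab
  unfold E9
  rw [mem_image]
  exact ⟨(a, b), by simpa using h1, rfl⟩

/-- the graph built from `R` -/
def GR {m : ℕ} (R : SimpleGraph (Fin m)) : SimpleGraph ((Fin 3 × Fin 3) × Fin m) where
  Adj x y := T9.Adj x.1 y.1 ∧ (x.1.2 = 0 → y.1.2 = 0 → R.Adj x.2 y.2)
  symm := ⟨fun _ _ h => ⟨h.1.symm, fun h1 h2 => (h.2 h2 h1).symm⟩⟩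
  loopless := ⟨fun _ h => h.1.ne rfl⟩

variable {m : ℕ} {R : SimpleGraph (Fin m)}

theorem count_GR : cliqueCount (GR R) 2 ≤ 12 * m ^ 2 := by
  classical
  have h1 : cliqueCount (GR R) 2 ≤ cliqueCount (blow T9 m) 2 := by
    rw [BlowAux.cliqueCount_eq (GR R) 2 (univ.filter fun T => (GR R).IsNClique 2 T) (by simp),
      BlowAux.cliqueCount_eq (blow T9 m) 2 (univ.filter fun T => (blow T9 m).IsNClique 2 T)
        (by simp)]
    refine card_le_card ?_
    intro T hT
    rw [mem_filter] at hT ⊢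
    exact ⟨mem_univ _, fun x hx y hy hxy => (hT.2.isClique hx hy hxy).1, hT.2.card_eq⟩
  have h2 := cliqueCount_blow_le T9 m 2
  have h3 := Nat.mul_le_mul_left (m ^ 2) count_T9
  calc cliqueCount (GR R) 2 ≤ m ^ 2 * 12 := h1.trans (h2.trans h3)
    _ = 12 * m ^ 2 := Nat.mul_comm _ _

theorem uniq (hR : R.LocallyLinear) {a b c d : Fin m} (hab : R.Adj a b) (hca : R.Adj c a)
    (hcb : R.Adj c b) (hda : R.Adj d a) (hdb : R.Adj d b) : c = d := by
  classical
  by_contra hcd
  have h1 : ({a, b, c} : Finset (Fin m)) ∈ R.cliqueSet 3 := by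
    rw [mem_cliqueSet_iff, is3Clique_triple_iff]
    exact ⟨hab, hca.symm, hcb.symm⟩
  have h2 : ({a, b, d} : Finset (Fin m)) ∈ R.cliqueSet 3 := by
    rw [mem_cliqueSet_iff, is3Clique_triple_iff]
    exact ⟨hab, hda.symm, hdb.symm⟩
  have hne : ({a, b, c} : Finset (Fin m)) ≠ {a, b, d} := by
    intro h
    have h3 : c ∈ ({a, b, d} : Finset (Fin m)) := by
      rw [← h]
      simp
    simp only [mem_insert, mem_singleton] at h3
    rcases h3 with h3 | h3 | h3
    · exact hca.ne h3
    · exact hcb.ne h3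
    · exact hcd h3
  have h3 := hR.edgeDisjointTriangles h1 h2 hne
  have h4 : a = b := h3 (by simp) (by simp)
  exact hab.ne h4

theorem one_common (hR : R.LocallyLinear) {a b x y : (Fin 3 × Fin 3) × Fin m} (hab : (GR R).Adj a b)
    (hxa : (GR R).Adj x a) (hxb : (GR R).Adj x b) (hya : (GR R).Adj y a) (hyb : (GR R).Adj y b) :
    x = y := by
  obtain ⟨ha, hb, hx, h1, h2, h3⟩ := t9_tri a.1 b.1 x.1 hab.1 hxa.1 hxb.1
  obtain ⟨-, -, hy, -, h5, h6⟩ := t9_tri a.1 b.1 y.1 hab.1 hya.1 hyb.1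
  have e1 : x.1.1 = y.1.1 := third _ _ _ _ h1 h2 h3 h5 h6
  have e2 : x.2 = y.2 := uniq hR (hab.2 ha hb) (hxa.2 hx ha) (hxb.2 hx hb) (hya.2 hy ha) (hyb.2 hy hb)
  exact Prod.ext (Prod.ext e1 (hx.trans hy.symm)) e2

theorem card_common (hR : R.LocallyLinear) (T : Finset ((Fin 3 × Fin 3) × Fin m))
    (hT : (GR R).IsNClique 2 T) (C : Finset ((Fin 3 × Fin 3) × Fin m))
    (hC : ∀ x ∈ C, ∀ w ∈ T, (GR R).Adj x w) : #C ≤ 1 := by
  classical
  obtain ⟨a, b, hab, rfl⟩ := card_eq_two.1 hT.card_eq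
  have h1 : (GR R).Adj a b := hT.isClique (by simp) (by simp) hab
  rw [card_le_one]
  intro x hx y hy
  exact one_common hR h1 (hC x hx a (by simp)) (hC x hx b (by simp)) (hC y hy a (by simp))
    (hC y hy b (by simp))

theorem adm_GR (hR : R.LocallyLinear) {Δ ω : ℕ} (hΔ : 1 ≤ Δ) (hω : 3 ≤ ω) :
    Adm 2 Δ ω (GR R) := by
  classical
  refine ⟨?_, ?_⟩
  · rw [free_split_iff]
    intro T hT C hC
    exact (card_common hR T hT C hC).trans hΔ
  · have h4 : (GR R).CliqueFree 4 := by
      intro T hT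
      obtain ⟨a, ha, b, hb, hab⟩ := one_lt_card.1 (by rw [hT.card_eq]; norm_num : 1 < #T)
      have h1 : (GR R).IsNClique 2 {a, b} := by
        refine ⟨?_, card_pair hab⟩
        intro x hx y hy hxy
        refine hT.isClique ?_ ?_ hxy
        · simp only [coe_insert, coe_singleton, Set.mem_insert_iff, Set.mem_singleton_iff] at hx
          rcases hx with rfl | rfl
          · exact ha
          · exact hb
        · simp only [coe_insert, coe_singleton, Set.mem_insert_iff, Set.mem_singleton_iff] at hy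
          rcases hy with rfl | rfl
          · exact ha
          · exact hb
      have h2 := card_common hR {a, b} h1 (T \ {a, b}) (by
        intro x hx w hw
        rw [mem_sdiff] at hx
        refine hT.isClique hx.1 ?_ ?_
        · rw [mem_insert, mem_singleton] at hw
          rcases hw with rfl | rfl
          · exact ha
          · exact hb
        · rintro rfl
          exact hx.2 hw)
      have h3 : #(T \ {a, b}) = 2 := by
        rw [card_sdiff_of_subset, hT.card_eq, card_pair hab]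
        intro x hx
        rw [mem_insert, mem_singleton] at hx
        rcases hx with rfl | rfl
        · exact ha
        · exact hb
      omega
    exact h4.mono (by omega)

/-- the positions of the copy -/
def pos (o α β : Fin 3 → Fin m) (w : Fin 3 × Fin 3) : Fin m :=
  if w.2 = 0 then o w.1 else if w.2 = 1 then α w.1 else β w.1

/-- the copy of `T9` -/
def cop (o α β : Fin 3 → Fin m) (ho : ∀ i j, i ≠ j → R.Adj (o i) (o j)) : Copy T9 (GR R) where
  toHom := ⟨fun w => (w, pos o α β w), by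
    intro a b hab
    refine ⟨hab, fun h1 h2 => ?_⟩
    show R.Adj (pos o α β a) (pos o α β b)
    unfold pos
    rw [if_pos h1, if_pos h2]
    exact ho _ _ (t9_zero a b hab h1 h2)⟩
  injective' := by
    intro a b hab
    exact congrArg Prod.fst hab

theorem cop_apply (o α β : Fin 3 → Fin m) (ho : ∀ i j, i ≠ j → R.Adj (o i) (o j))
    (w : Fin 3 × Fin 3) : cop o α β ho w = (w, pos o α β w) := rfl

theorem ord_exists (T : Finset (Fin m)) (hT : R.IsNClique 3 T) :
    ∃ o : Fin 3 → Fin m, (∀ i j, i ≠ j → R.Adj (o i) (o j)) ∧ univ.image o = T := by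
  classical
  let e : Fin 3 ≃ T := (T.equivFin.trans (finCongr hT.card_eq)).symm
  refine ⟨fun i => (e i : Fin m), ?_, ?_⟩
  · intro i j hij
    refine hT.isClique (e i).2 (e j).2 ?_
    intro h
    exact hij (e.injective (Subtype.ext h))
  · ext x
    rw [mem_image]
    constructor
    · rintro ⟨i, -, rfl⟩
      exact (e i).2
    · intro hx
      refine ⟨e.symm ⟨x, hx⟩, mem_univ _, ?_⟩
      rw [Equiv.apply_symm_apply]

theorem label_ge [DecidableRel R.Adj] :
    #(R.cliqueFinset 3) * m ^ 6 ≤ (GR R).labelledCopyCount T9 := by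
  classical
  have hex : ∀ T : R.cliqueFinset 3, ∃ o : Fin 3 → Fin m, (∀ i j, i ≠ j → R.Adj (o i) (o j)) ∧
      univ.image o = (T : Finset (Fin m)) := fun T => ord_exists _ (mem_cliqueFinset_iff.1 T.2)
  choose o ho1 ho2 using hex
  have h1 : Nat.card (R.cliqueFinset 3 × ((Fin 3 → Fin m) × (Fin 3 → Fin m))) =
      #(R.cliqueFinset 3) * m ^ 6 := by
    rw [Nat.card_prod, Nat.card_prod, Nat.card_fun, Nat.card_fin, Nat.card_fin,
      Nat.card_eq_fintype_card, Fintype.card_coe, ← pow_add]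
  rw [← h1, TuranAux.label_card]
  have := TuranAux.finite_copy (GR R) T9
  refine Nat.card_le_card_of_injective (fun x => cop (o x.1) x.2.1 x.2.2 (ho1 x.1)) ?_
  rintro ⟨T, α, β⟩ ⟨T', α', β'⟩ h
  have h2 : ∀ w, pos (o T) α β w = pos (o T') α' β' w := by
    intro w
    have h3 := congrArg (fun f : Copy T9 (GR R) => (f w).2) h
    simpa only [cop_apply] using h3
  have e0 : o T = o T' := by
    funext i
    have := h2 (i, 0)
    simpa [pos] using this
  have e1 : α = α' := by
    funext i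
    have := h2 (i, 1)
    simpa [pos] using this
  have e2 : β = β' := by
    funext i
    have := h2 (i, 2)
    simpa [pos] using this
  have e3 : T = T' := by
    apply Subtype.ext
    rw [← ho2 T, ← ho2 T', e0]
  rw [e1, e2, e3]

end LowAux

open LowAux in
theorem low (m : ℕ) {Δ ω : ℕ} (hΔ : 1 ≤ Δ) (hω : 3 ≤ ω) :
    ∃ k N : ℕ, Real 2 Δ ω T9 k N ∧ k ≤ 12 * m ^ 2 ∧
      ruzsaSzemerediNumberNat m * m ^ 6 ≤ N * Nat.card (T9 ≃g T9) := by
  classical
  obtain ⟨R, hdec, hcard, hR⟩ := ruzsaSzemerediNumber_spec (α := Fin m)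
  refine ⟨cliqueCount (GR R) 2, (GR R).copyCount T9,
    ⟨(Fin 3 × Fin 3) × Fin m, inferInstance, GR R, adm_GR hR hΔ hω, rfl, le_rfl⟩, count_GR, ?_⟩
  rw [← labelled_eq]
  have h1 := label_ge (R := R)
  unfold ruzsaSzemerediNumberNat
  rw [← hcard]
  convert h1

end NPL
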